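import Mathlib

/-!
# NOreX/LA: a dimension formula for subspaces
-/

set_option autoImplicit false

namespace Pool.Agent.Lib.NOreX

variable {k A' B' C' : Type*} [Field k] [AddCommGroup A'] [Module k A'] [AddCommGroup B'] [Module k B']
  [AddCommGroup C'] [Module k C']

/-- rank plus nullity on a subspace -/
theorem rank_null (f : B' →ₗ[k] C') (X : Submodule k B') [Module.Finite k X] :
    Module.finrank k (X.map f) + Module.finrank k (X ⊓ LinearMap.ker f : Submodule k B') =
      Module.finrank k X := by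
  have h1 := LinearMap.finrank_range_add_finrank_ker (f.domRestrict X)
  have h2 : LinearMap.range (f.domRestrict X) = X.map f := by
    rw [LinearMap.range_domRestrict]
  have h3 : Module.finrank k (LinearMap.ker (f.domRestrict X)) =
      Module.finrank k (X ⊓ LinearMap.ker f : Submodule k B') := by
    have h4 : (LinearMap.ker (f.domRestrict X)).map X.subtype = X ⊓ LinearMap.ker f := by
      ext x
      simp only [Submodule.mem_map, LinearMap.mem_ker, LinearMap.domRestrict_apply,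
        Submodule.subtype_apply, Submodule.mem_inf]
      constructor
      · rintro ⟨y, hy, rfl⟩
        exact ⟨y.2, hy⟩
      · rintro ⟨hx, hx'⟩
        exact ⟨⟨x, hx⟩, hx', rfl⟩
    rw [← h4, Submodule.finrank_map_subtype_eq]
  rw [h2, h3] at h1
  exact h1

/-- an injective map preserves the dimension -/
theorem finrank_map_inj (f : B' →ₗ[k] C') (X : Submodule k B') [Module.Finite k X]
    (h : ∀ x ∈ X, f x = 0 → x = 0) : Module.finrank k (X.map f) = Module.finrank k X := by
  have h1 := rank_null f X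
  have h2 : X ⊓ LinearMap.ker f = ⊥ := by
    rw [eq_bot_iff]
    rintro x ⟨hx, hx'⟩
    exact h x hx hx'
  rw [h2, finrank_bot] at h1
  omega

private def LA_prodE (W W' : Submodule k B') : (W.prod W') ≃ₗ[k] W × W' where
  toFun x := (⟨x.1.1, x.2.1⟩, ⟨x.1.2, x.2.2⟩)
  invFun y := ⟨(y.1.1, y.2.1), ⟨y.1.2, y.2.2⟩⟩
  map_add' _ _ := rfl
  map_smul' _ _ := rfl
  left_inv _ := rfl
  right_inv _ := rfl

theorem fin_prod (W : Submodule k B') [Module.Finite k W] : Module.Finite k (W.prod W) :=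
  Module.Finite.equiv (LA_prodE W W).symm

theorem finrank_prod_self (W : Submodule k B') [Module.Finite k W] :
    Module.finrank k (W.prod W) = 2 * Module.finrank k W := by
  rw [(LA_prodE W W).finrank_eq, Module.finrank_prod]
  ring

theorem map_coprod_self (p1 p2 : B' →ₗ[k] C') (W : Submodule k B') :
    (W.prod W).map (p1.coprod p2) = W.map p1 ⊔ W.map p2 := by
  apply le_antisymm
  · rintro _ ⟨⟨b1, b2⟩, ⟨hb1, hb2⟩, rfl⟩
    exact Submodule.add_mem_sup (Submodule.mem_map_of_mem hb1) (Submodule.mem_map_of_mem hb2)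
  · refine sup_le ?_ ?_
    · rintro _ ⟨b, hb, rfl⟩
      refine ⟨(b, 0), ⟨hb, W.zero_mem⟩, ?_⟩
      change p1 b + p2 0 = p1 b
      rw [map_zero, add_zero]
    · rintro _ ⟨b, hb, rfl⟩
      refine ⟨(0, b), ⟨W.zero_mem, hb⟩, ?_⟩
      change p1 0 + p2 b = p2 b
      rw [map_zero, zero_add]

/-- injectivity from the dimension, one map -/
theorem inj_of_dim1 (p : B' →ₗ[k] C') (B : Submodule k B') [Module.Finite k B]
    (h : Module.finrank k B ≤ Module.finrank k (B.map p)) : ∀ b ∈ B, p b = 0 → b = 0 := by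
  have h1 := rank_null p B
  have hf : Module.Finite k (B ⊓ LinearMap.ker p : Submodule k B') :=
    Submodule.finiteDimensional_of_le inf_le_left
  have h2 : Module.finrank k (B ⊓ LinearMap.ker p : Submodule k B') = 0 := by omega
  have h3 := Submodule.finrank_eq_zero.1 h2
  intro b hb hb'
  have h4 : b ∈ (B ⊓ LinearMap.ker p : Submodule k B') := ⟨hb, hb'⟩
  rw [h3] at h4
  exact (Submodule.mem_bot k).1 h4

/-- injectivity from the dimension, two maps -/
theorem inj_of_dim (p1 p2 : B' →ₗ[k] C') (B : Submodule k B') [Module.Finite k B]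
    (h : 2 * Module.finrank k B ≤ Module.finrank k (B.map p1 ⊔ B.map p2 : Submodule k C')) :
    ∀ b1 ∈ B, ∀ b2 ∈ B, p1 b1 + p2 b2 = 0 → b1 = 0 ∧ b2 = 0 := by
  have hf := fin_prod B
  have h1 := inj_of_dim1 (p1.coprod p2) (B.prod B) (by
    rw [map_coprod_self, finrank_prod_self]
    exact h)
  intro b1 hb1 b2 hb2 hb
  have h2 := h1 (b1, b2) ⟨hb1, hb2⟩ hb
  exact ⟨congrArg Prod.fst h2, congrArg Prod.snd h2⟩

/-- a relation from the dimension -/
theorem ker_of_dim (p1 p2 : B' →ₗ[k] C') (B : Submodule k B') [Module.Finite k B]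
    (h : Module.finrank k (B.map p1 ⊔ B.map p2 : Submodule k C') < 2 * Module.finrank k B) :
    ∃ b1 ∈ B, ∃ b2 ∈ B, p1 b1 + p2 b2 = 0 ∧ ¬ (b1 = 0 ∧ b2 = 0) := by
  by_contra hc
  have hf := fin_prod B
  have h1 := finrank_map_inj (p1.coprod p2) (B.prod B) (by
    rintro ⟨b1, b2⟩ ⟨hb1, hb2⟩ hb
    by_contra h2
    refine hc ⟨b1, hb1, b2, hb2, hb, ?_⟩
    rintro ⟨h3, h4⟩
    exact h2 (Prod.ext h3 h4))
  rw [map_coprod_self, finrank_prod_self] at h1
  omega

/-- two independent vectors span a plane -/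
theorem span_of_dim (V : Submodule k B') (h2 : Module.finrank k V = 2) (x y : B') (hx : x ∈ V)
    (hy : y ∈ V) (hi : ∀ a b : k, a • x + b • y = 0 → a = 0 ∧ b = 0) :
    ∀ z ∈ V, ∃ a b : k, a • x + b • y = z := by
  have h3 : LinearIndependent k ![x, y] := LinearIndependent.pair_iff.2 hi
  have h4 := finrank_span_eq_card h3
  rw [Fintype.card_fin] at h4
  have h5 : Submodule.span k (Set.range ![x, y]) ≤ V := by
    rw [Submodule.span_le]
    rintro _ ⟨j, rfl⟩
    fin_cases j
    · exact hx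
    · exact hy
  have hf : Module.Finite k V := Module.finite_of_finrank_pos (by omega)
  have h6 := Submodule.eq_of_le_of_finrank_eq h5 (by rw [h4, h2])
  intro z hz
  rw [← h6, Matrix.range_cons, Matrix.range_cons, Matrix.range_empty, Set.union_empty,
    Set.singleton_union, Submodule.mem_span_pair] at hz
  exact hz

/-- a plane has a basis -/
theorem basis_of_dim (V : Submodule k B') (h2 : Module.finrank k V = 2) :
    ∃ x ∈ V, ∃ y ∈ V, (∀ a b : k, a • x + b • y = 0 → a = 0 ∧ b = 0) ∧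
      ∀ z ∈ V, ∃ a b : k, a • x + b • y = z := by
  have hf : Module.Finite k V := Module.finite_of_finrank_pos (by omega)
  let b := Module.finBasisOfFinrankEq k V h2
  have h3 : ∀ a c : k, a • (b 0 : B') + c • (b 1 : B') = 0 → a = 0 ∧ c = 0 := by
    intro a c hac
    have h4 : a • b 0 + c • b 1 = 0 := by
      apply Subtype.ext
      exact hac
    have h5 := Fintype.linearIndependent_iff.1 b.linearIndependent ![a, c] (by
      rw [Fin.sum_univ_two]
      exact h4)
    exact ⟨h5 0, h5 1⟩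
  exact ⟨b 0, (b 0).2, b 1, (b 1).2, h3, span_of_dim V h2 _ _ (b 0).2 (b 1).2 h3⟩

/-- a line has a generator -/
theorem line_of_dim (V : Submodule k B') (h1 : Module.finrank k V = 1) :
    ∃ x ∈ V, x ≠ 0 ∧ ∀ z ∈ V, ∃ a : k, a • x = z := by
  obtain ⟨v, hv, hv'⟩ := finrank_eq_one_iff'.1 h1
  refine ⟨v, v.2, fun h => hv (Subtype.ext h), ?_⟩
  intro z hz
  obtain ⟨c, hc⟩ := hv' ⟨z, hz⟩
  exact ⟨c, congrArg Subtype.val hc⟩

/-- **the rank two formula** -/
theorem rank_two (s1 s2 : A' →ₗ[k] B') (p1 p2 : B' →ₗ[k] C') (A : Submodule k A')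
    (B : Submodule k B') (C : Submodule k C') [Module.Finite k A] [Module.Finite k B]
    (hs1 : ∀ x ∈ A, s1 x ∈ B) (hs2 : ∀ x ∈ A, s2 x ∈ B)
    (hrel : ∀ x ∈ A, p1 (s1 x) + p2 (s2 x) = 0)
    (hinj : ∀ x ∈ A, s1 x = 0 → s2 x = 0 → x = 0)
    (hC : B.map p1 ⊔ B.map p2 = C)
    (hdim : Module.finrank k C + Module.finrank k A = 2 * Module.finrank k B) :
    (∀ b1 ∈ B, ∀ b2 ∈ B, p1 b1 + p2 b2 = 0 → ∃ x ∈ A, s1 x = b1 ∧ s2 x = b2) ∧
    ∀ W ≤ B, Module.finrank k (W.map p1 ⊔ W.map p2 : Submodule k C') +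
      Module.finrank k (A ⊓ W.comap s1 ⊓ W.comap s2 : Submodule k A') = 2 * Module.finrank k W := by
  let P : B' × B' →ₗ[k] C' := p1.coprod p2
  let S : A' →ₗ[k] B' × B' := s1.prod s2
  have hmapP : ∀ W : Submodule k B', (W.prod W).map P = W.map p1 ⊔ W.map p2 := fun W =>
    map_coprod_self p1 p2 W
  have hSinj : ∀ x ∈ A, S x = 0 → x = 0 := by
    intro x hx hSx
    have h1 : (s1 x, s2 x) = (0, 0) := hSx
    exact hinj x hx (congrArg Prod.fst h1) (congrArg Prod.snd h1)
  have hfB := fin_prod B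
  have h1 := rank_null P (B.prod B)
  rw [hmapP, hC, finrank_prod_self] at h1
  have h2 : A.map S ≤ B.prod B ⊓ LinearMap.ker P := by
    rintro _ ⟨x, hx, rfl⟩
    refine ⟨⟨hs1 x hx, hs2 x hx⟩, ?_⟩
    exact hrel x hx
  have h3 : Module.finrank k (A.map S) = Module.finrank k A := finrank_map_inj S A hSinj
  have hfin : Module.Finite k (B.prod B ⊓ LinearMap.ker P : Submodule k (B' × B')) :=
    Submodule.finiteDimensional_of_le inf_le_left
  have h4 : A.map S = B.prod B ⊓ LinearMap.ker P := by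
    refine Submodule.eq_of_le_of_finrank_eq h2 ?_
    rw [h3]
    omega
  refine ⟨?_, ?_⟩
  · intro b1 hb1 b2 hb2 h
    have h5 : (b1, b2) ∈ A.map S := by
      rw [h4]
      exact ⟨⟨hb1, hb2⟩, h⟩
    obtain ⟨x, hx, hx'⟩ := h5
    exact ⟨x, hx, congrArg Prod.fst hx', congrArg Prod.snd hx'⟩
  · intro W hW
    have hfW : Module.Finite k W := Submodule.finiteDimensional_of_le hW
    have hfWW := fin_prod W
    have h5 := rank_null P (W.prod W)
    rw [hmapP, finrank_prod_self] at h5
    have h6 : W.prod W ⊓ LinearMap.ker P = (A ⊓ W.comap s1 ⊓ W.comap s2).map S := by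
      ext ⟨b1, b2⟩
      constructor
      · rintro ⟨⟨hb1, hb2⟩, hb⟩
        have h7 : (b1, b2) ∈ A.map S := by
          rw [h4]
          exact ⟨⟨hW hb1, hW hb2⟩, hb⟩
        obtain ⟨x, hx, hx'⟩ := h7
        have e1 : s1 x = b1 := congrArg Prod.fst hx'
        have e2 : s2 x = b2 := congrArg Prod.snd hx'
        refine ⟨x, ⟨⟨hx, ?_⟩, ?_⟩, hx'⟩
        · change s1 x ∈ W
          rw [e1]
          exact hb1
        · change s2 x ∈ W
          rw [e2]
          exact hb2
      · rintro ⟨x, ⟨⟨hx, hx1⟩, hx2⟩, hx'⟩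
        rw [← hx']
        exact ⟨⟨hx1, hx2⟩, hrel x hx⟩
    have hfA : Module.Finite k (A ⊓ W.comap s1 ⊓ W.comap s2 : Submodule k A') :=
      Submodule.finiteDimensional_of_le (inf_le_left.trans inf_le_left)
    have h8 : ∀ x ∈ (A ⊓ W.comap s1 ⊓ W.comap s2 : Submodule k A'), S x = 0 → x = 0 := by
      rintro x ⟨⟨hx, _⟩, _⟩ h9
      exact hSinj x hx h9
    rw [h6, finrank_map_inj S _ h8] at h5
    exact h5

end Pool.Agent.Lib.NOreX
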