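import Pool.Agent.Lib.NOreX.Sys
import Pool.Agent.Lib.NOreX.LA

/-!
# NOreX/GS: the rank two condition from the dimensions and the regularity
-/

set_option autoImplicit false

namespace Pool.Agent.Lib.NOreX

variable {ι : Type} {k R : Type*} [DecidableEq ι] [Field k] [Ring R] [Algebra k R]

/-- the rules of multiplication -/
structure GS (U L : (ι → ℕ) → Submodule k R) : Prop where
  hLU : ∀ n, L n ≤ U n
  UU : ∀ m n, U m * U n ≤ U (m + n)
  UL : ∀ m n, U m * L n ≤ L (m + n)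
  LU : ∀ m n, L m * U n ≤ L (m + n)
  gen : ∀ m n, U (m + n) ≤ U m * U n ⊔ L (m + n)

variable {U L : (ι → ℕ) → Submodule k R}

/-- left multiplication by `v` modulo the lower terms -/
def mq (hG : GS U L) (n a : ι → ℕ) (v : R) (hv : v ∈ U a) : (R ⧸ L n) →ₗ[k] (R ⧸ L (n + a)) :=
  Submodule.mapQ (L n) (L (n + a)) (LinearMap.mulLeft k v) (by
    intro x hx
    change v * x ∈ L (n + a)
    rw [add_comm n a]
    exact hG.UL a n (Submodule.mul_mem_mul hv hx))

omit [DecidableEq ι] in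
theorem mq_mk (hG : GS U L) (n a : ι → ℕ) (v : R) (hv : v ∈ U a) (b : R) :
    mq hG n a v hv ((L n).mkQ b) = (L (n + a)).mkQ (v * b) := rfl

theorem mem_map_mkQ {M W : Submodule k R} (h : M ≤ W) {x : R} :
    M.mkQ x ∈ W.map M.mkQ ↔ x ∈ W := by
  rw [← Submodule.mem_comap, Submodule.comap_map_mkQ, sup_eq_right.2 h]

theorem mkQ_zero {M : Submodule k R} {x : R} : M.mkQ x = 0 ↔ x ∈ M := by
  rw [← LinearMap.mem_ker, Submodule.ker_mkQ]

/-- dimension of the graded component -/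
noncomputable def dm (U L : (ι → ℕ) → Submodule k R) (n : ι → ℕ) : ℕ :=
  Module.finrank k ((U n).map (L n).mkQ)

/-- the elements `v1`, `v2` are independent modulo `L a` -/
def Ind (L : (ι → ℕ) → Submodule k R) (a : ι → ℕ) (v1 v2 : R) : Prop :=
  ∀ α β : k, α • v1 + β • v2 ∈ L a → α = 0 ∧ β = 0

/-- the elements `v1`, `v2` span `U a` modulo `L a` -/
def Spn (U L : (ι → ℕ) → Submodule k R) (a : ι → ℕ) (v1 v2 : R) : Prop :=
  ∀ x ∈ U a, ∃ α β : k, x - (α • v1 + β • v2) ∈ L a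

omit [DecidableEq ι] in
theorem spn_of_ind (a : ι → ℕ) (hd : dm U L a = 2) (v1 v2 : R) (h1 : v1 ∈ U a) (h2 : v2 ∈ U a)
    (hi : Ind L a v1 v2) : Spn U L a v1 v2 := by
  have h3 := span_of_dim ((U a).map (L a).mkQ) hd ((L a).mkQ v1) ((L a).mkQ v2)
    (Submodule.mem_map_of_mem h1) (Submodule.mem_map_of_mem h2) (by
      intro α β h
      apply hi
      rw [← mkQ_zero, map_add, map_smul, map_smul]
      exact h)
  intro x hx
  obtain ⟨α, β, h⟩ := h3 _ (Submodule.mem_map_of_mem hx)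
  refine ⟨α, β, ?_⟩
  rw [← mkQ_zero, map_sub, map_add, map_smul, map_smul, h, sub_self]

theorem basis_of_dm (a : ι → ℕ) (hd : dm U L a = 2) :
    ∃ v1 ∈ U a, ∃ v2 ∈ U a, Ind L a v1 v2 ∧ Spn U L a v1 v2 := by
  obtain ⟨x, ⟨v1, hv1, hx⟩, y, ⟨v2, hv2, hy⟩, h1, -⟩ := basis_of_dim ((U a).map (L a).mkQ) hd
  have h3 : Ind L a v1 v2 := by
    intro α β h
    apply h1
    rw [← mkQ_zero, map_add, map_smul, map_smul] at h
    rw [← hx, ← hy]
    exact h
  exact ⟨v1, hv1, v2, hv2, h3, spn_of_ind a hd v1 v2 hv1 hv2 h3⟩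

/-- the image of `W` under the multiplications by the elements of degree `a` -/
theorem map_mul_eq (hG : GS U L) (a n : ι → ℕ) (v1 v2 : R) (h1 : v1 ∈ U a) (h2 : v2 ∈ U a)
    (hs : Spn U L a v1 v2) (W : Submodule k R) (hW : W ≤ U n) :
    (W.map (L n).mkQ).map (mq hG n a v1 h1) ⊔ (W.map (L n).mkQ).map (mq hG n a v2 h2) =
      (U a * W ⊔ L (n + a)).map (L (n + a)).mkQ := by
  apply le_antisymm
  · refine sup_le ?_ ?_
    · rintro _ ⟨_, ⟨w, hw, rfl⟩, rfl⟩
      exact Submodule.mem_map_of_mem (Submodule.mem_sup_left (Submodule.mul_mem_mul h1 hw))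
    · rintro _ ⟨_, ⟨w, hw, rfl⟩, rfl⟩
      exact Submodule.mem_map_of_mem (Submodule.mem_sup_left (Submodule.mul_mem_mul h2 hw))
  · rw [Submodule.map_le_iff_le_comap]
    refine sup_le ?_ ?_
    · rw [Submodule.mul_le]
      intro x hx w hw
      obtain ⟨α, β, h3⟩ := hs x hx
      have h4 : (x - (α • v1 + β • v2)) * w ∈ L (n + a) := by
        rw [add_comm n a]
        exact hG.LU a n (Submodule.mul_mem_mul h3 (hW hw))
      have h5 : (L (n + a)).mkQ (x * w) = mq hG n a v1 h1 ((L n).mkQ (α • w)) +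
          mq hG n a v2 h2 ((L n).mkQ (β • w)) := by
        rw [mq_mk, mq_mk, ← map_add]
        rw [← sub_eq_zero, ← map_sub, mkQ_zero]
        have h6 : x * w - (v1 * (α • w) + v2 * (β • w)) = (x - (α • v1 + β • v2)) * w := by
          rw [sub_mul, add_mul, smul_mul_assoc, smul_mul_assoc, mul_smul_comm, mul_smul_comm]
        rw [h6]
        exact h4
      rw [Submodule.mem_comap, h5]
      exact Submodule.add_mem_sup
        (Submodule.mem_map_of_mem (Submodule.mem_map_of_mem (W.smul_mem α hw)))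
        (Submodule.mem_map_of_mem (Submodule.mem_map_of_mem (W.smul_mem β hw)))
    · intro x hx
      rw [Submodule.mem_comap, mkQ_zero.2 hx]
      exact Submodule.zero_mem _

omit [DecidableEq ι] in
theorem sup_low (hG : GS U L) (a n : ι → ℕ) : U a * U n ⊔ L (n + a) = U (n + a) := by
  apply le_antisymm
  · refine sup_le ?_ (hG.hLU _)
    rw [add_comm n a]
    exact hG.UU a n
  · rw [add_comm n a]
    exact hG.gen a n

/-- the whole component -/
theorem map_mul_top (hG : GS U L) (a n : ι → ℕ) (v1 v2 : R) (h1 : v1 ∈ U a) (h2 : v2 ∈ U a)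
    (hs : Spn U L a v1 v2) :
    ((U n).map (L n).mkQ).map (mq hG n a v1 h1) ⊔ ((U n).map (L n).mkQ).map (mq hG n a v2 h2) =
      (U (n + a)).map (L (n + a)).mkQ := by
  rw [map_mul_eq hG a n v1 v2 h1 h2 hs (U n) le_rfl, sup_low hG]

/-- regularity of the elements of degree `a` in degree `n` -/
def Rg (U L : (ι → ℕ) → Submodule k R) (a n : ι → ℕ) : Prop :=
  ∀ v ∈ U a, v ∉ L a → ∀ b ∈ U n, v * b ∈ L (n + a) → b ∈ L n

/-- the smallest case of regularity -/
theorem rg_of_dm (hG : GS U L) (a n : ι → ℕ) (v1 v2 : R) (h1 : v1 ∈ U a) (h2 : v2 ∈ U a)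
    (hs : Spn U L a v1 v2) (hpos : 0 < dm U L n) (hd : 2 * dm U L n ≤ dm U L (n + a)) :
    Rg U L a n := by
  have hf : Module.Finite k ((U n).map (L n).mkQ) := Module.finite_of_finrank_pos hpos
  have h3 := inj_of_dim (mq hG n a v1 h1) (mq hG n a v2 h2) ((U n).map (L n).mkQ) (by
    rw [map_mul_top hG a n v1 v2 h1 h2 hs]
    exact hd)
  intro v hv hv' b hb hvb
  obtain ⟨α, β, h4⟩ := hs v hv
  have h5 := h3 ((L n).mkQ (α • b)) (Submodule.mem_map_of_mem ((U n).smul_mem α hb))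
    ((L n).mkQ (β • b)) (Submodule.mem_map_of_mem ((U n).smul_mem β hb)) (by
      rw [mq_mk, mq_mk, ← map_add, mkQ_zero]
      have h6 : v1 * (α • b) + v2 * (β • b) = v * b - (v - (α • v1 + β • v2)) * b := by
        rw [sub_mul, add_mul, smul_mul_assoc, smul_mul_assoc, mul_smul_comm, mul_smul_comm,
          sub_sub_cancel]
      rw [h6]
      refine (L (n + a)).sub_mem hvb ?_
      rw [add_comm n a]
      exact hG.LU a n (Submodule.mul_mem_mul h4 hb))
  rw [mkQ_zero, mkQ_zero] at h5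
  by_cases hα : α = 0
  · by_cases hβ : β = 0
    · refine absurd ?_ hv'
      rw [hα, hβ, zero_smul, zero_smul, add_zero, sub_zero] at h4
      exact h4
    · have h7 := (L n).smul_mem β⁻¹ h5.2
      rw [smul_smul, inv_mul_cancel₀ hβ, one_smul] at h7
      exact h7
  · have h7 := (L n).smul_mem α⁻¹ h5.1
    rw [smul_smul, inv_mul_cancel₀ hα, one_smul] at h7
    exact h7

/-- the data in one direction -/
structure Dat (U L : (ι → ℕ) → Submodule k R) (a : ι → ℕ) (v1 v2 u1 u2 : R) : Prop where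
  hv1 : v1 ∈ U a
  hv2 : v2 ∈ U a
  hu1 : u1 ∈ U a
  hu2 : u2 ∈ U a
  iv : Ind L a v1 v2
  iu : Ind L a u1 u2
  sv : Spn U L a v1 v2
  su : Spn U L a u1 u2
  rel : v1 * u1 + v2 * u2 ∈ L (a + a)

omit [DecidableEq ι] in
theorem Ind.left {a : ι → ℕ} {v1 v2 : R} (h : Ind L a v1 v2) : v1 ∉ L a := by
  intro h1
  have h2 := h 1 0 (by rw [one_smul, zero_smul, add_zero]; exact h1)
  exact one_ne_zero h2.1

/-- exactness and the rank two formula -/
theorem rt_of_rg (hG : GS U L) (a n : ι → ℕ) (v1 v2 u1 u2 : R) (D : Dat U L a v1 v2 u1 u2)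
    (hpos : 0 < dm U L n) (hpos' : 0 < dm U L (n + a))
    (hd : dm U L (n + a + a) + dm U L n = 2 * dm U L (n + a)) (hR : Rg U L a n) :
    (∀ b1 ∈ (U (n + a)).map (L (n + a)).mkQ, ∀ b2 ∈ (U (n + a)).map (L (n + a)).mkQ,
      mq hG (n + a) a v1 D.hv1 b1 + mq hG (n + a) a v2 D.hv2 b2 = 0 →
      ∃ x ∈ (U n).map (L n).mkQ, mq hG n a u1 D.hu1 x = b1 ∧ mq hG n a u2 D.hu2 x = b2) ∧
    ∀ W ≤ (U (n + a)).map (L (n + a)).mkQ,
      Module.finrank k (W.map (mq hG (n + a) a v1 D.hv1) ⊔ W.map (mq hG (n + a) a v2 D.hv2) :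
        Submodule k (R ⧸ L (n + a + a))) +
      Module.finrank k ((U n).map (L n).mkQ ⊓ W.comap (mq hG n a u1 D.hu1) ⊓
        W.comap (mq hG n a u2 D.hu2) : Submodule k (R ⧸ L n)) = 2 * Module.finrank k W := by
  have hf : Module.Finite k ((U n).map (L n).mkQ) := Module.finite_of_finrank_pos hpos
  have hf' : Module.Finite k ((U (n + a)).map (L (n + a)).mkQ) :=
    Module.finite_of_finrank_pos hpos'
  have hmem : ∀ u : R, ∀ hu : u ∈ U a, ∀ x ∈ (U n).map (L n).mkQ,
      mq hG n a u hu x ∈ (U (n + a)).map (L (n + a)).mkQ := by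
    rintro u hu _ ⟨b, hb, rfl⟩
    rw [mq_mk]
    refine Submodule.mem_map_of_mem ?_
    rw [add_comm n a]
    exact hG.UU a n (Submodule.mul_mem_mul hu hb)
  refine rank_two (mq hG n a u1 D.hu1) (mq hG n a u2 D.hu2) (mq hG (n + a) a v1 D.hv1)
    (mq hG (n + a) a v2 D.hv2) ((U n).map (L n).mkQ) ((U (n + a)).map (L (n + a)).mkQ)
    ((U (n + a + a)).map (L (n + a + a)).mkQ) (hmem u1 D.hu1) (hmem u2 D.hu2) ?_ ?_
    (map_mul_top hG a (n + a) v1 v2 D.hv1 D.hv2 D.sv) hd
  · rintro _ ⟨b, hb, rfl⟩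
    rw [mq_mk, mq_mk, mq_mk, mq_mk, ← map_add, mkQ_zero, ← mul_assoc, ← mul_assoc, ← add_mul]
    have h1 : n + a + a = (a + a) + n := by
      rw [add_assoc, add_comm]
    rw [h1]
    exact hG.LU (a + a) n (Submodule.mul_mem_mul D.rel hb)
  · rintro _ ⟨b, hb, rfl⟩ h1 -
    rw [mq_mk, mkQ_zero] at h1
    rw [mkQ_zero]
    exact hR u1 D.hu1 D.iu.left b hb h1

/-- the step of the induction for the regularity -/
theorem rg_step (hG : GS U L) (a n : ι → ℕ) (v1 v2 u1 u2 : R) (D : Dat U L a v1 v2 u1 u2)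
    (hpos : 0 < dm U L n) (hpos' : 0 < dm U L (n + a))
    (hd : dm U L (n + a + a) + dm U L n = 2 * dm U L (n + a)) (hR : Rg U L a n) :
    Rg U L a (n + a) := by
  obtain ⟨h1, -⟩ := rt_of_rg hG a n v1 v2 u1 u2 D hpos hpos' hd hR
  intro v hv hv' b hb hvb
  obtain ⟨α, β, h4⟩ := D.sv v hv
  have h5 := h1 ((L (n + a)).mkQ (α • b)) (Submodule.mem_map_of_mem ((U _).smul_mem α hb))
    ((L (n + a)).mkQ (β • b)) (Submodule.mem_map_of_mem ((U _).smul_mem β hb)) (by
      rw [mq_mk, mq_mk, ← map_add, mkQ_zero]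
      have h6 : v1 * (α • b) + v2 * (β • b) = v * b - (v - (α • v1 + β • v2)) * b := by
        rw [sub_mul, add_mul, smul_mul_assoc, smul_mul_assoc, mul_smul_comm, mul_smul_comm,
          sub_sub_cancel]
      rw [h6]
      refine (L (n + a + a)).sub_mem hvb ?_
      rw [add_comm (n + a) a]
      exact hG.LU a (n + a) (Submodule.mul_mem_mul h4 hb))
  obtain ⟨_, ⟨c, hc, rfl⟩, e1, e2⟩ := h5
  rw [mq_mk, ← sub_eq_zero, ← map_sub, mkQ_zero] at e1 e2
  by_cases h0 : α = 0 ∧ β = 0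
  · refine absurd ?_ hv'
    rw [h0.1, h0.2, zero_smul, zero_smul, add_zero, sub_zero] at h4
    exact h4
  have h7 : (β • u1 + (-α) • u2) * c ∈ L (n + a) := by
    have h8 : (β • u1 + (-α) • u2) * c = β • (u1 * c - α • b) - α • (u2 * c - β • b) := by
      rw [add_mul, smul_mul_assoc, smul_mul_assoc, smul_sub, smul_sub, smul_smul, smul_smul,
        mul_comm α β, neg_smul]
      abel
    rw [h8]
    exact (L _).sub_mem ((L _).smul_mem β e1) ((L _).smul_mem α e2)
  have h9 : c ∈ L n := by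
    refine hR (β • u1 + (-α) • u2) ((U a).add_mem ((U a).smul_mem _ D.hu1)
      ((U a).smul_mem _ D.hu2)) ?_ c hc h7
    intro h10
    have h11 := D.iu β (-α) h10
    exact h0 ⟨neg_eq_zero.1 h11.2, h11.1⟩
  have h12 : α • b ∈ L (n + a) := by
    have h13 : u1 * c ∈ L (n + a) := by
      rw [add_comm n a]
      exact hG.UL a n (Submodule.mul_mem_mul D.hu1 h9)
    have h14 := (L (n + a)).sub_mem h13 e1
    rw [sub_sub_cancel] at h14
    exact h14
  have h12' : β • b ∈ L (n + a) := by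
    have h13 : u2 * c ∈ L (n + a) := by
      rw [add_comm n a]
      exact hG.UL a n (Submodule.mul_mem_mul D.hu2 h9)
    have h14 := (L (n + a)).sub_mem h13 e2
    rw [sub_sub_cancel] at h14
    exact h14
  by_cases hα : α = 0
  · have hβ : β ≠ 0 := fun hβ => h0 ⟨hα, hβ⟩
    have h15 := (L (n + a)).smul_mem β⁻¹ h12'
    rw [smul_smul, inv_mul_cancel₀ hβ, one_smul] at h15
    exact h15
  · have h15 := (L (n + a)).smul_mem α⁻¹ h12
    rw [smul_smul, inv_mul_cancel₀ hα, one_smul] at h15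
    exact h15

/-- **the rank two condition** -/
theorem e1_of_rt (hG : GS U L) (a n : ι → ℕ) (v1 v2 u1 u2 : R) (D : Dat U L a v1 v2 u1 u2)
    (hpos : 0 < dm U L n) (hpos' : 0 < dm U L (n + a))
    (hd : dm U L (n + a + a) + dm U L n = 2 * dm U L (n + a)) (hR : Rg U L a n)
    (W : Submodule k R) (hl : L (n + a) ≤ W) (hW : W ≤ U (n + a)) :
    rk (L (n + a + a)) (U a * W ⊔ L (n + a + a)) + rk (L n) (U n ⊓ colon (U a) W) =
      2 * rk (L (n + a)) W := by
  obtain ⟨-, h1⟩ := rt_of_rg hG a n v1 v2 u1 u2 D hpos hpos' hd hR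
  have h2 := h1 (W.map (L (n + a)).mkQ) (Submodule.map_mono hW)
  rw [map_mul_eq hG a (n + a) v1 v2 D.hv1 D.hv2 D.sv W hW] at h2
  have h3 : ((U n).map (L n).mkQ ⊓ (W.map (L (n + a)).mkQ).comap (mq hG n a u1 D.hu1) ⊓
      (W.map (L (n + a)).mkQ).comap (mq hG n a u2 D.hu2) : Submodule k (R ⧸ L n)) =
      (U n ⊓ colon (U a) W).map (L n).mkQ := by
    apply le_antisymm
    · rintro _ ⟨⟨⟨b, hb, rfl⟩, h4⟩, h5⟩
      have h4' : (L (n + a)).mkQ (u1 * b) ∈ W.map (L (n + a)).mkQ := h4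
      have h5' : (L (n + a)).mkQ (u2 * b) ∈ W.map (L (n + a)).mkQ := h5
      rw [mem_map_mkQ hl] at h4' h5'
      refine Submodule.mem_map_of_mem ⟨hb, ?_⟩
      intro x hx
      obtain ⟨α, β, h6⟩ := D.su x hx
      have h7 : x * b = (x - (α • u1 + β • u2)) * b + (α • (u1 * b) + β • (u2 * b)) := by
        rw [sub_mul, add_mul, smul_mul_assoc, smul_mul_assoc, sub_add_cancel]
      rw [h7]
      refine W.add_mem (hl ?_) (W.add_mem (W.smul_mem α h4') (W.smul_mem β h5'))
      rw [add_comm n a]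
      exact hG.LU a n (Submodule.mul_mem_mul h6 hb)
    · rintro _ ⟨b, ⟨hb, hb'⟩, rfl⟩
      refine ⟨⟨Submodule.mem_map_of_mem hb, ?_⟩, ?_⟩
      · exact Submodule.mem_map_of_mem (hb' u1 D.hu1)
      · exact Submodule.mem_map_of_mem (hb' u2 D.hu2)
  rw [h3] at h2
  unfold rk
  exact_mod_cast h2

/-- the data exist -/
theorem exists_dat (hG : GS U L) (a : ι → ℕ) (hd : dm U L a = 2) (hd2 : dm U L (a + a) < 4)
    (hreg : ∀ u ∈ U a, ∀ w ∈ U a, u * w ∈ L (a + a) → u ∈ L a ∨ w ∈ L a) :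
    ∃ v1 v2 u1 u2 : R, Dat U L a v1 v2 u1 u2 := by
  obtain ⟨v1, hv1, v2, hv2, iv, sv⟩ := basis_of_dm a hd
  have hf : Module.Finite k ((U a).map (L a).mkQ) :=
    Module.finite_of_finrank_pos (lt_of_lt_of_eq (by norm_num : 0 < 2) hd.symm)
  obtain ⟨_, ⟨u1, hu1, rfl⟩, _, ⟨u2, hu2, rfl⟩, h1, h2⟩ := ker_of_dim (mq hG a a v1 hv1)
    (mq hG a a v2 hv2) ((U a).map (L a).mkQ) (by
      rw [map_mul_top hG a a v1 v2 hv1 hv2 sv]
      change dm U L (a + a) < 2 * dm U L a
      rw [hd]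
      exact hd2)
  rw [mq_mk, mq_mk, ← map_add, mkQ_zero] at h1
  rw [mkQ_zero, mkQ_zero] at h2
  have iu : Ind L a u1 u2 := by
    intro α β h3
    by_contra h0
    -- a common multiple
    have key : ∃ w ∈ U a, w ∉ L a ∧ ∃ γ δ : k, ¬ (γ = 0 ∧ δ = 0) ∧ u1 - γ • w ∈ L a ∧
        u2 - δ • w ∈ L a := by
      by_cases hβ : β = 0
      · have hα : α ≠ 0 := fun hα => h0 ⟨hα, hβ⟩
        have h4 : u1 ∈ L a := by
          rw [hβ, zero_smul, add_zero] at h3
          have h5 := (L a).smul_mem α⁻¹ h3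
          rw [smul_smul, inv_mul_cancel₀ hα, one_smul] at h5
          exact h5
        refine ⟨u2, hu2, fun h5 => h2 ⟨h4, h5⟩, 0, 1, fun h5 => one_ne_zero h5.2, ?_, ?_⟩
        · rw [zero_smul, sub_zero]
          exact h4
        · rw [one_smul, sub_self]
          exact (L a).zero_mem
      · have h4 : u2 - (-(β⁻¹ * α)) • u1 ∈ L a := by
          have h5 := (L a).smul_mem β⁻¹ h3
          rw [smul_add, smul_smul, smul_smul, inv_mul_cancel₀ hβ, one_smul] at h5
          rw [neg_smul, sub_neg_eq_add, add_comm]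
          exact h5
        refine ⟨u1, hu1, ?_, 1, -(β⁻¹ * α), fun h5 => one_ne_zero h5.1, ?_, h4⟩
        · intro h5
          refine h2 ⟨h5, ?_⟩
          have h6 := (L a).add_mem h4 ((L a).smul_mem (-(β⁻¹ * α)) h5)
          rw [sub_add_cancel] at h6
          exact h6
        · rw [one_smul, sub_self]
          exact (L a).zero_mem
    obtain ⟨w, hw, hw', γ, δ, h5, h6, h7⟩ := key
    have h8 : (γ • v1 + δ • v2) * w ∈ L (a + a) := by
      have h9 : (γ • v1 + δ • v2) * w = (v1 * u1 + v2 * u2) -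
          (v1 * (u1 - γ • w) + v2 * (u2 - δ • w)) := by
        rw [add_mul, smul_mul_assoc, smul_mul_assoc, mul_sub, mul_sub, mul_smul_comm,
          mul_smul_comm]
        abel
      rw [h9]
      exact (L _).sub_mem h1 ((L _).add_mem (hG.UL a a (Submodule.mul_mem_mul hv1 h6))
        (hG.UL a a (Submodule.mul_mem_mul hv2 h7)))
    rcases hreg _ ((U a).add_mem ((U a).smul_mem γ hv1) ((U a).smul_mem δ hv2)) w hw h8 with h | h
    · exact h5 (iv γ δ h)
    · exact hw' h
  exact ⟨v1, v2, u1, u2, hv1, hv2, hu1, hu2, iv, iu, sv, spn_of_ind a hd u1 u2 hu1 hu2 iu, h1⟩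

/-- the rank one condition -/
theorem e1_of_line (hG : GS U L) (a n : ι → ℕ) (ha : dm U L a = 1) (hpos : 0 < dm U L n)
    (hd : dm U L (n + a) = dm U L n) (hd2 : dm U L (n + a + a) = dm U L n)
    (W : Submodule k R) (hl : L (n + a) ≤ W) (hW : W ≤ U (n + a)) :
    rk (L (n + a + a)) (U a * W ⊔ L (n + a + a)) + rk (L n) (U n ⊓ colon (U a) W) =
      2 * rk (L (n + a)) W := by
  obtain ⟨_, ⟨v, hv, rfl⟩, -, h1⟩ := line_of_dim _ ha
  have hs : ∀ x ∈ U a, ∃ α : k, x - α • v ∈ L a := by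
    intro x hx
    obtain ⟨α, h2⟩ := h1 _ (Submodule.mem_map_of_mem hx)
    refine ⟨α, ?_⟩
    rw [← mkQ_zero, map_sub, map_smul, h2, sub_self]
  have hmap : ∀ m : ι → ℕ, ∀ X : Submodule k R, X ≤ U m →
      (X.map (L m).mkQ).map (mq hG m a v hv) = (U a * X ⊔ L (m + a)).map (L (m + a)).mkQ := by
    intro m X hX
    apply le_antisymm
    · rintro _ ⟨_, ⟨w, hw, rfl⟩, rfl⟩
      exact Submodule.mem_map_of_mem (Submodule.mem_sup_left (Submodule.mul_mem_mul hv hw))
    · rw [Submodule.map_le_iff_le_comap]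
      refine sup_le ?_ ?_
      · rw [Submodule.mul_le]
        intro x hx w hw
        obtain ⟨α, h3⟩ := hs x hx
        have h4 : (x - α • v) * w ∈ L (m + a) := by
          rw [add_comm m a]
          exact hG.LU a m (Submodule.mul_mem_mul h3 (hX hw))
        have h5 : (L (m + a)).mkQ (x * w) = mq hG m a v hv ((L m).mkQ (α • w)) := by
          rw [mq_mk, ← sub_eq_zero, ← map_sub, mkQ_zero]
          have h6 : x * w - v * (α • w) = (x - α • v) * w := by
            rw [sub_mul, smul_mul_assoc, mul_smul_comm]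
          rw [h6]
          exact h4
        rw [Submodule.mem_comap, h5]
        exact Submodule.mem_map_of_mem (Submodule.mem_map_of_mem (X.smul_mem α hw))
      · intro x hx
        rw [Submodule.mem_comap, mkQ_zero.2 hx]
        exact Submodule.zero_mem _
  have hinj : ∀ m : ι → ℕ, 0 < dm U L m → dm U L (m + a) = dm U L m →
      ∀ b ∈ (U m).map (L m).mkQ, mq hG m a v hv b = 0 → b = 0 := by
    intro m hm hm'
    have hf : Module.Finite k ((U m).map (L m).mkQ) := Module.finite_of_finrank_pos hm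
    refine inj_of_dim1 _ _ ?_
    rw [hmap m (U m) le_rfl, sup_low hG]
    exact hm'.ge
  have hf' : Module.Finite k ((U (n + a)).map (L (n + a)).mkQ) :=
    Module.finite_of_finrank_pos (by
      change 0 < dm U L (n + a)
      rw [hd]
      exact hpos)
  have hf : Module.Finite k ((U n).map (L n).mkQ) := Module.finite_of_finrank_pos hpos
  -- the first summand
  have e1 : rk (L (n + a + a)) (U a * W ⊔ L (n + a + a)) = rk (L (n + a)) W := by
    have hfW : Module.Finite k (W.map (L (n + a)).mkQ) :=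
      Submodule.finiteDimensional_of_le (Submodule.map_mono hW)
    unfold rk
    rw [← hmap (n + a) W hW, finrank_map_inj (mq hG (n + a) a v hv) (W.map (L (n + a)).mkQ)]
    intro x hx hx'
    exact hinj (n + a) (by rw [hd]; exact hpos) (by rw [hd2, hd]) x
      (Submodule.map_mono hW hx) hx'
  -- the second summand
  have e2 : rk (L n) (U n ⊓ colon (U a) W) = rk (L (n + a)) W := by
    have hfC : Module.Finite k ((U n ⊓ colon (U a) W).map (L n).mkQ) :=
      Submodule.finiteDimensional_of_le (Submodule.map_mono inf_le_left)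
    have h3 : ((U n ⊓ colon (U a) W).map (L n).mkQ).map (mq hG n a v hv) =
        W.map (L (n + a)).mkQ := by
      apply le_antisymm
      · rintro _ ⟨_, ⟨b, ⟨hb, hb'⟩, rfl⟩, rfl⟩
        rw [mq_mk]
        exact Submodule.mem_map_of_mem (hb' v hv)
      · intro y hy
        have h4 : y ∈ ((U n).map (L n).mkQ).map (mq hG n a v hv) := by
          rw [hmap n (U n) le_rfl, sup_low hG]
          exact Submodule.map_mono hW hy
        obtain ⟨_, ⟨b, hb, rfl⟩, rfl⟩ := h4
        rw [mq_mk, mem_map_mkQ hl] at hy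
        refine Submodule.mem_map_of_mem (Submodule.mem_map_of_mem ⟨hb, ?_⟩)
        intro x hx
        obtain ⟨α, h5⟩ := hs x hx
        have h6 : x * b = (x - α • v) * b + α • (v * b) := by
          rw [sub_mul, smul_mul_assoc, sub_add_cancel]
        rw [h6]
        refine W.add_mem (hl ?_) (W.smul_mem α hy)
        rw [add_comm n a]
        exact hG.LU a n (Submodule.mul_mem_mul h5 hb)
    unfold rk
    rw [← h3, finrank_map_inj (mq hG n a v hv) ((U n ⊓ colon (U a) W).map (L n).mkQ)]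
    intro x hx hx'
    exact hinj n hpos hd x (Submodule.map_mono inf_le_left hx) hx'
  rw [e1, e2]
  ring

end Pool.Agent.Lib.NOreX
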