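import Pool.Agent.Lib.NOreX.Sys

/-!
# NOreX/Core: every stable family is generated in a box
-/

set_option autoImplicit false

namespace Pool.Agent.Lib.NOreX

variable {ι : Type} {k R : Type*} [DecidableEq ι] [Field k] [Ring R] [Algebra k R]

namespace Sys

variable (Y : Sys ι k R)

/-- `N` is generated below `m` on the slice of `n0` in the directions of `S` -/
def Gen (S : Finset ι) (N : (ι → ℕ) → Submodule k R) (n0 : ι → ℕ) (m : ℕ) : Prop :=
  ∀ n, Agr S n n0 → ∀ i ∈ S, m ≤ n i → N (n + e i) ≤ Y.U (e i) * N n ⊔ Y.L (n + e i)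

/-- the statement proved by induction on `S` -/
def PS (S : Finset ι) : Prop := ∀ N : (ι → ℕ) → Submodule k R, Y.Stab S N → ∀ n0 : ι → ℕ,
  ∃ m : ℕ, Y.Gen S N n0 m ∧ Aff S (Y.H N) n0 m

variable {Y}

theorem H_mono {S : Finset ι} {N N' : (ι → ℕ) → Submodule k R} (h' : Y.Stab S N')
    {n : ι → ℕ} (h : N n ≤ N' n) : Y.H N n ≤ Y.H N' n := rk_mono h (h'.fin n)

theorem PS.aff {T : Finset ι} (h : Y.PS T) {N : (ι → ℕ) → Submodule k R} (hN : Y.Stab T N)
    (n0 : ι → ℕ) : ∃ m, Aff T (Y.H N) n0 m := by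
  obtain ⟨m, -, hm⟩ := h N hN n0
  exact ⟨m, hm⟩

theorem rho_mono {T : Finset ι} (h : Y.PS T) {N N' : (ι → ℕ) → Submodule k R} (hN : Y.Stab T N)
    (hN' : Y.Stab T N') {n0 : ι → ℕ} (hle : ∀ n, Agr T n n0 → N n ≤ N' n) :
    rho T (Y.H N) n0 ≤ rho T (Y.H N') n0 := by
  obtain ⟨h1, h2⟩ := rho_comb (T := T) (f := Y.H N') (g := Y.H N)
    (h := fun n => 1 * Y.H N' n + (-1) * Y.H N n) (a := 1) (b := -1) (n0 := n0)
    (h.aff hN' n0) (h.aff hN n0) (fun _ _ => rfl)
  have h3 := rho_nonneg h1 (fun n hn => by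
    have h4 := H_mono hN' (hle n hn)
    linarith)
  linarith

/-- the rank formula -/
theorem rho_E1 {T : Finset ι} (h : Y.PS T) {N : (ι → ℕ) → Submodule k R} (hN : Y.Stab T N)
    {i : ι} (hi : i ∉ T) (n : ι → ℕ) :
    rho T (Y.H (Y.vfam i N)) (n + e i + e i) + rho T (Y.H (Y.cfam i N)) n =
      2 * rho T (Y.H N) (n + e i) := by
  have hv := vfam_stab hN hi
  have hc := cfam_stab hN i
  have a1 : ∃ m, Aff T (Y.H (Y.vfam i N)) (n + (e i + e i)) m := h.aff hv _
  have a2 : ∃ m, Aff T (Y.H N) (n + e i) m := h.aff hN _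
  obtain ⟨m1, hm1⟩ := a1
  obtain ⟨m2, hm2⟩ := a2
  have b1 := aff_shift hm1
  have b2 := aff_shift hm2
  obtain ⟨-, c1⟩ := rho_comb (T := T) (f := fun n => Y.H (Y.vfam i N) (n + (e i + e i)))
    (g := Y.H (Y.cfam i N)) (h := fun n => 2 * Y.H N (n + e i)) (a := 1) (b := 1) (n0 := n)
    ⟨m1, b1⟩ (h.aff hc n) (fun n' _ => by
      have h1 := H_E1 hN i n'
      rw [add_assoc] at h1
      linarith)
  obtain ⟨-, c2⟩ := rho_comb (T := T) (f := fun n => Y.H N (n + e i))
    (g := fun n => Y.H N (n + e i)) (h := fun n => 2 * Y.H N (n + e i)) (a := 1) (b := 1) (n0 := n)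
    ⟨m2, b2⟩ ⟨m2, b2⟩ (fun n' _ => by ring)
  rw [rho_shift ⟨m1, hm1⟩] at c1
  rw [rho_shift ⟨m2, hm2⟩] at c2
  rw [add_assoc]
  linarith

variable (Y) in
/-- saturated families -/
def Sat (S : Finset ι) (N : (ι → ℕ) → Submodule k R) : Prop := ∀ i ∈ S, ∀ n, Y.cfam i N n ≤ N n

theorem agr_add_of {T : Finset ι} {n n0 : ι → ℕ} (h : Agr T n n0) (a : ι → ℕ) :
    Agr T (n + a) (n0 + a) := h.add a

/-- convexity for saturated families -/
theorem rho_convex {S T : Finset ι} (hTS : T ⊆ S) (h : Y.PS T) {N : (ι → ℕ) → Submodule k R}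
    (hN : Y.Stab S N) (hs : Y.Sat S N) {i : ι} (hi : i ∉ T) (hiS : i ∈ S) (n : ι → ℕ) :
    0 ≤ rho T (Y.H N) (n + e i + e i) - 2 * rho T (Y.H N) (n + e i) + rho T (Y.H N) n := by
  have hNT := hN.mono hTS
  have h1 := rho_E1 h hNT hi n
  have h2 := rho_mono h (vfam_stab hNT hi) hNT (n0 := n + e i + e i) (fun n' _ => vfam_le hN hiS n')
  have h3 := rho_mono h (cfam_stab hNT i) hNT (n0 := n) (fun n' _ => hs i hiS n')
  linarith

/-- concavity for generated families -/
theorem rho_concave {S T : Finset ι} (hTS : T ⊆ S) (h : Y.PS T) {N : (ι → ℕ) → Submodule k R}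
    (hN : Y.Stab S N) {i : ι} (hi : i ∉ T) (hiS : i ∈ S) (n : ι → ℕ)
    (hg : ∀ n', Agr T n' (n + e i) → N (n' + e i) ≤ Y.U (e i) * N n' ⊔ Y.L (n' + e i)) :
    rho T (Y.H N) (n + e i + e i) - 2 * rho T (Y.H N) (n + e i) + rho T (Y.H N) n ≤ 0 := by
  have hNT := hN.mono hTS
  have h1 := rho_E1 h hNT hi n
  have h2 := rho_mono h hNT (vfam_stab hNT hi) (n0 := n + e i + e i) (fun n' hn' => by
    have h0 : n' i ≠ 0 := by
      rw [hn' i hi, add_e_same]
      omega
    have h4 : n' = n' - e i + e i := (sub_add_one h0).symm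
    have h5 : Agr T (n' - e i) (n + e i) := by
      intro j hj
      have h6 := hn' j hj
      by_cases hji : j = i
      · subst hji
        rw [add_e_same] at h6
        simp only [Pi.sub_apply, e_same]
        omega
      · rw [add_e_ne _ hji] at h6
        simp only [Pi.sub_apply, e_ne hji]
        omega
    have h7 := hg (n' - e i) h5
    rw [h4, vfam_add]
    exact h7)
  have h3 := rho_mono h hNT (cfam_stab hNT i) (n0 := n) (fun n' _ => le_cfam hN hiS n')
  linarith

/-- the second difference of the rank in the direction `i` -/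
noncomputable def D2 (Y : Sys ι k R) (T : Finset ι) (N : (ι → ℕ) → Submodule k R) (i : ι)
    (n : ι → ℕ) : ℤ :=
  rho T (Y.H N) (n + e i + e i) - 2 * rho T (Y.H N) (n + e i) + rho T (Y.H N) n

variable (Y) in
/-- the rank is affine beyond `m` -/
def Star (S T : Finset ι) (N : (ι → ℕ) → Submodule k R) (n0 : ι → ℕ) (m : ℕ) : Prop :=
  ∀ n, Agr S n n0 → ∀ i ∈ S, i ∉ T → m ≤ n i → Y.D2 T N i n = 0

variable (Y) in
/-- the box of size `m` generates a subfamily of the same rank -/
def Full (S T : Finset ι) (N : (ι → ℕ) → Submodule k R) (n0 : ι → ℕ) (m : ℕ) : Prop :=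
  ∀ n, Agr S n n0 → rho T (Y.H N) n ≤ rho T (Y.H (Y.Fm S m N)) n

/-- Step A -/
theorem full_of_star [Fintype ι] {S T : Finset ι} (hTS : T ⊆ S) (h : Y.PS T)
    {N : (ι → ℕ) → Submodule k R} (hN : Y.Stab S N) (hs : Y.Sat S N) {n0 : ι → ℕ} {m1 : ℕ}
    (hst : Y.Star S T N n0 m1) : ∃ m, Y.Full S T N n0 m := by
  have hNT := hN.mono hTS
  choose g hg using fun n => h N hNT n
  -- a uniform bound over the finitely many slices
  obtain ⟨M, hM⟩ : ∃ M : ℕ, ∀ n1 : ι → ℕ, (∀ j, n1 j ≤ n0 j + (m1 + 1)) → g n1 ≤ M := by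
    have h1 : (Set.Iic (fun j => n0 j + (m1 + 1)) : Set (ι → ℕ)).Finite := Set.finite_Iic _
    obtain ⟨M, hM⟩ := (h1.image g).bddAbove
    exact ⟨M, fun n1 hn1 => hM ⟨n1, fun j => hn1 j, rfl⟩⟩
  let m := m1 + 1 + M
  have hF := Fm_stab hN m
  have hFT := hF.mono hTS
  -- on the slab `N` is contained in the truncated family
  have hslab : ∀ s : ℕ, ∀ n, Agr S n n0 → (∀ j ∈ S, j ∉ T → n j ≤ m1 + 1) →
      ∑ j ∈ T, n j = s → N n ≤ Y.Fm S m N n := by
    intro s
    induction s using Nat.strong_induction_on with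
    | _ s ih =>
      intro n hn hbox hsum
      by_cases hall : ∀ j ∈ T, n j ≤ m
      · refine le_Fm_of_box N fun j hj => ?_
        by_cases hjT : j ∈ T
        · exact hall j hjT
        · exact (hbox j hj hjT).trans (by omega)
      · push Not at hall
        obtain ⟨i, hi, him⟩ := hall
        have hi0 : n i ≠ 0 := by omega
        have hn' : n = n - e i + e i := (sub_add_one hi0).symm
        have hni : (n - e i) i = n i - 1 := by simp [e_same]
        have hnj : ∀ j, j ≠ i → (n - e i) j = n j := fun j hj => by simp [e_ne hj]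
        have hbase : ∀ j, (fun j => if j ∈ T then 0 else n j) j ≤ n0 j + (m1 + 1) := by
          intro j
          by_cases hjT : j ∈ T
          · simp [hjT]
          · simp only [if_neg hjT]
            by_cases hjS : j ∈ S
            · exact (hbox j hjS hjT).trans (by omega)
            · rw [hn j hjS]
              omega
        have hgen := (hg (fun j => if j ∈ T then 0 else n j)).1 (n - e i) (by
          intro j hj
          simp only [if_neg hj]
          exact hnj j (fun h' => hj (h' ▸ hi))) i hi (by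
            rw [hni]
            have := hM _ hbase
            omega)
        have hag : Agr S (n - e i) n0 := by
          intro j hj
          rw [hnj j (fun h' => hj (h' ▸ hTS hi))]
          exact hn j hj
        have h2 := ih (∑ j ∈ T, (n - e i) j) (by
          rw [← hsum, ← Finset.add_sum_erase T _ hi, ← Finset.add_sum_erase T n hi, hni]
          have h8 : ∑ x ∈ T.erase i, (n - e i) x = ∑ x ∈ T.erase i, n x :=
            Finset.sum_congr rfl fun x hx => hnj x (Finset.ne_of_mem_erase hx)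
          rw [h8]
          omega) (n - e i) hag (fun j hj hjT => by
            rw [hnj j (fun h' => hjT (h' ▸ hi))]
            exact hbox j hj hjT) rfl
        rw [hn']
        refine hgen.trans (sup_le ?_ (hF.lo _))
        exact (mul_mr h2).trans (hF.mul i (hTS hi) _)
  refine ⟨m, ?_⟩
  suffices H : ∀ s : ℕ, ∀ n, Agr S n n0 → ∑ j ∈ S, n j = s →
      rho T (Y.H N) n ≤ rho T (Y.H (Y.Fm S m N)) n from fun n hn => H _ n hn rfl
  intro s
  induction s using Nat.strong_induction_on with
  | _ s ih =>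
    intro n hn hsum
    by_cases hall : ∀ j ∈ S, j ∉ T → n j ≤ m1 + 1
    · refine rho_mono h hNT hFT fun n' hn' => ?_
      refine hslab _ n' ((hn'.mono hTS).trans hn) (fun j hj hjT => ?_) rfl
      rw [hn' j hjT]
      exact hall j hj hjT
    · push Not at hall
      obtain ⟨i, hiS, hiT, him⟩ := hall
      obtain ⟨n', rfl⟩ : ∃ n', n = n' + e i + e i := by
        have h1 : n i ≠ 0 := by omega
        have h2 : (n - e i) i ≠ 0 := by
          simp only [Pi.sub_apply, e_same]
          omega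
        exact ⟨n - e i - e i, by rw [sub_add_one h2, sub_add_one h1]⟩
      have hn' : Agr S n' n0 := by
        intro j hj
        have h1 := hn j hj
        have hji : j ≠ i := fun h' => hj (h' ▸ hiS)
        rwa [add_e_ne _ hji, add_e_ne _ hji] at h1
      have hn'' : Agr S (n' + e i) n0 := hn'.add_e hiS
      have hsum1 : ∑ j ∈ S, (n' + e i) j < s := by
        rw [← hsum]
        refine Finset.sum_lt_sum (fun j _ => le_add_e _ i j) ⟨i, hiS, ?_⟩
        rw [add_e_same (n' + e i)]
        omega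
      have h1 := rho_E1 h hFT hiT n'
      have h2 := rho_mono h (vfam_stab hFT hiT) hFT (n0 := n' + e i + e i)
        (fun x _ => vfam_le hF hiS x)
      have h3 := rho_mono h (cfam_stab hFT i) hNT (n0 := n') (fun x _ =>
        (cfam_mono (Fm_le hN m _)).trans (hs i hiS x))
      have h4 := ih _ hsum1 (n' + e i) hn'' rfl
      have h5 := hst n' hn' i hiS hiT (by
        rw [add_e_same, add_e_same] at him
        omega)
      unfold D2 at h5
      linarith

/-- the whole algebra -/
theorem U_stab (S : Finset ι) : Y.Stab S Y.U :=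
  ⟨Y.hLU, fun _ => le_rfl, fun i _ n => by
    rw [add_comm n]
    exact Y.UU _ _⟩

theorem rho_U {T : Finset ι} (h : Y.PS T) {i : ι} (hi : i ∉ T) (n : ι → ℕ) :
    Y.D2 T Y.U i n = 0 := by
  have hU := U_stab (Y := Y) T
  have hU' := U_stab (Y := Y) (insert i T)
  have h1 := rho_E1 h hU hi n
  have h2 := rho_mono h (vfam_stab hU hi) hU (n0 := n + e i + e i)
    (fun x _ => vfam_le hU' (Finset.mem_insert_self i T) x)
  have h3 := rho_mono h hU (vfam_stab hU hi) (n0 := n + e i + e i) (fun n' hn' => by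
    have h0 : n' i ≠ 0 := by
      rw [hn' i hi, add_e_same]
      omega
    have h4 : n' = n' - e i + e i := (sub_add_one h0).symm
    rw [h4, vfam_add]
    have h5 := Y.gen (e i) (n' - e i)
    rwa [add_comm (e i)] at h5)
  have h4 := rho_mono h (cfam_stab hU i) hU (n0 := n) (fun n' _ => inf_le_left)
  have h5 := rho_mono h hU (cfam_stab hU i) (n0 := n)
    (fun n' _ => le_cfam hU' (Finset.mem_insert_self i T) n')
  unfold D2
  linarith

/-- Step B, one direction left -/
theorem star_last {S T : Finset ι} {i : ι} (hi : i ∉ T) (hS : S = insert i T) (h : Y.PS T)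
    {N : (ι → ℕ) → Submodule k R} (hN : Y.Stab S N) (hs : Y.Sat S N) (n0 : ι → ℕ) :
    ∃ m, Y.Star S T N n0 m := by
  have hTS : T ⊆ S := hS ▸ Finset.subset_insert i T
  have hiS : i ∈ S := hS ▸ Finset.mem_insert_self i T
  have hNT := hN.mono hTS
  let x : ℕ → (ι → ℕ) := fun t => Function.update n0 i t
  have hx1 : ∀ t, x t + e i = x (t + 1) := by
    intro t
    funext j
    by_cases hj : j = i
    · subst hj
      rw [add_e_same]
      simp [x]
    · rw [add_e_ne _ hj]
      simp [x, hj]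
  have hx2 : ∀ t, x t + e i + e i = x (t + 2) := fun t => by rw [hx1, hx1]
  obtain ⟨m, hm⟩ := seq_stab (fun t => rho T (Y.H Y.U) (x t) - rho T (Y.H N) (x t))
    (fun t => by
      have h1 := rho_mono h hNT (U_stab (Y := Y) T) (n0 := x t) (fun n _ => hN.hi n)
      change 0 ≤ rho T (Y.H Y.U) (x t) - rho T (Y.H N) (x t)
      linarith)
    (fun t => by
      have h1 := rho_U h hi (x t)
      have h2 := rho_convex hTS h hN hs hi hiS (x t)
      unfold D2 at h1
      rw [hx2, hx1] at h1 h2
      linarith)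
  refine ⟨m, fun n hn j hjS hjT hjm => ?_⟩
  obtain rfl : j = i := by
    rw [hS] at hjS
    rcases Finset.mem_insert.1 hjS with h' | h'
    · exact h'
    · exact absurd h' hjT
  have hag : Agr T n (x (n j)) := by
    intro a ha
    by_cases haj : a = j
    · subst haj
      simp [x]
    · simp only [x, Function.update_of_ne haj]
      refine hn a ?_
      rw [hS, Finset.mem_insert]
      push Not
      exact ⟨haj, ha⟩
  have e0 : rho T (Y.H N) n = rho T (Y.H N) (x (n j)) := rho_indep (h.aff hNT _) hag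
  have e1 : rho T (Y.H N) (n + e j) = rho T (Y.H N) (x (n j) + e j) :=
    rho_indep (h.aff hNT _) (hag.add _)
  have e2 : rho T (Y.H N) (n + e j + e j) = rho T (Y.H N) (x (n j) + e j + e j) :=
    rho_indep (h.aff hNT _) ((hag.add _).add _)
  have h1 := rho_U h hi (x (n j))
  have h2 := hm (n j) hjm
  unfold D2 at h1 ⊢
  rw [e0, e1, e2, hx2, hx1]
  rw [hx2, hx1] at h1
  linarith

/-- the increments of the rank of a saturated family are bounded by the rank in one direction more -/
theorem incr_le {S T : Finset ι} {i : ι} (hi : i ∉ T) (hS : insert i T ⊆ S) (h : Y.PS T)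
    (h' : Y.PS (insert i T)) {N : (ι → ℕ) → Submodule k R} (hN : Y.Stab S N) (hs : Y.Sat S N)
    (n : ι → ℕ) :
    rho T (Y.H N) (n + e i) - rho T (Y.H N) n ≤ rho (insert i T) (Y.H N) n := by
  have hTS : T ⊆ S := (Finset.subset_insert i T).trans hS
  have hiS : i ∈ S := hS (Finset.mem_insert_self i T)
  have hNT := hN.mono hTS
  obtain ⟨m, hm⟩ := h'.aff (hN.mono hS) n
  have h1 : ∀ s : ℕ, rho T (Y.H N) (n + e i) - rho T (Y.H N) n ≤
      rho T (Y.H N) (n + s • e i + e i) - rho T (Y.H N) (n + s • e i) := by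
    intro s
    induction s with
    | zero => simp
    | succ s ih =>
      have h2 := rho_convex hTS h hN hs hi hiS (n + s • e i)
      have e1 : n + (s + 1) • e i = n + s • e i + e i := by
        rw [succ_nsmul, add_assoc]
      rw [e1]
      linarith
  have h2 := h1 m
  have h3 : Agr (insert i T) (n + m • e i) n := by
    intro j hj
    have hji : j ≠ i := fun h' => hj (h' ▸ Finset.mem_insert_self i T)
    simp only [Pi.add_apply, Pi.smul_apply, e_ne hji, smul_zero, add_zero]
  rw [rho_insert hi hm h3 (by simp [e_same]) (h.aff hNT _) (h.aff hNT _)] at h2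
  exact h2

/-- the increments of the rank of a generated family -/
theorem le_incr {S T : Finset ι} {i : ι} (hi : i ∉ T) (hS : insert i T ⊆ S) (h : Y.PS T)
    (h' : Y.PS (insert i T)) {N : (ι → ℕ) → Submodule k R} (hN : Y.Stab S N) {m0 : ℕ}
    {n : ι → ℕ} (hn : m0 ≤ n i)
    (hg : ∀ n', Agr (insert i T) n' n → m0 ≤ n' i →
      N (n' + e i) ≤ Y.U (e i) * N n' ⊔ Y.L (n' + e i)) :
    rho (insert i T) (Y.H N) n ≤ rho T (Y.H N) (n + e i) - rho T (Y.H N) n := by
  have hTS : T ⊆ S := (Finset.subset_insert i T).trans hS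
  have hiS : i ∈ S := hS (Finset.mem_insert_self i T)
  have hNT := hN.mono hTS
  obtain ⟨m, hm⟩ := h'.aff (hN.mono hS) n
  have hagr : ∀ s : ℕ, Agr (insert i T) (n + s • e i) n := by
    intro s j hj
    have hji : j ≠ i := fun h' => hj (h' ▸ Finset.mem_insert_self i T)
    simp only [Pi.add_apply, Pi.smul_apply, e_ne hji, smul_zero, add_zero]
  have h1 : ∀ s : ℕ, rho T (Y.H N) (n + s • e i + e i) - rho T (Y.H N) (n + s • e i) ≤
      rho T (Y.H N) (n + e i) - rho T (Y.H N) n := by
    intro s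
    induction s with
    | zero => simp
    | succ s ih =>
      have h2 := rho_concave hTS h hN hi hiS (n + s • e i) (fun n' hn' => by
        refine hg n' ?_ ?_
        · exact (hn'.mono (Finset.subset_insert i T)).trans
            ((hagr s).add_e (Finset.mem_insert_self i T))
        · rw [hn' i hi]
          simp only [Pi.add_apply]
          omega)
      have e1 : n + (s + 1) • e i = n + s • e i + e i := by
        rw [succ_nsmul, add_assoc]
      rw [e1]
      linarith
  have h2 := h1 m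
  rw [rho_insert hi hm (hagr m) (by simp [e_same]) (h.aff hNT _) (h.aff hNT _)] at h2
  exact h2

/-- Step B -/
theorem star_of_full {S T : Finset ι} (hTS : T ⊆ S) (h : Y.PS T)
    (hP : ∀ i ∈ S, i ∉ T → Y.PS (insert i T))
    {N : (ι → ℕ) → Submodule k R} (hN : Y.Stab S N) (hs : Y.Sat S N) {n0 : ι → ℕ}
    (hfull : ∀ i ∈ S, i ∉ T → ∃ m, Y.Full S (insert i T) N n0 m) : ∃ m, Y.Star S T N n0 m := by
  have hNT := hN.mono hTS
  -- a common box
  have hfull' : ∀ i, ∃ m, i ∈ S → i ∉ T → Y.Full S (insert i T) N n0 m := by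
    intro i
    by_cases h1 : i ∈ S ∧ i ∉ T
    · obtain ⟨m, hm⟩ := hfull i h1.1 h1.2
      exact ⟨m, fun _ _ => hm⟩
    · exact ⟨0, fun a b => absurd ⟨a, b⟩ h1⟩
  choose mm hmm using hfull'
  let m0 := ∑ i ∈ S, mm i
  have hF := Fm_stab hN m0
  have hFT := hF.mono hTS
  have hm0 : ∀ i ∈ S, i ∉ T → Y.Full S (insert i T) N n0 m0 := by
    intro i hiS hiT n hn
    have hsub : insert i T ⊆ S := Finset.insert_subset hiS hTS
    refine (hmm i hiS hiT n hn).trans ?_
    refine rho_mono (hP i hiS hiT) ((Fm_stab hN _).mono hsub) (hF.mono hsub) fun n' _ => ?_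
    exact Fm_mono hN (Finset.single_le_sum (f := mm) (fun _ _ => Nat.zero_le _) hiS) n'
  -- increments
  have hinc : ∀ n, Agr S n n0 → ∀ i ∈ S, i ∉ T → m0 ≤ n i →
      rho T (Y.H N) (n + e i) - rho T (Y.H N) n ≤ rho (insert i T) (Y.H N) n ∧
      rho (insert i T) (Y.H N) n ≤
        rho T (Y.H (Y.Fm S m0 N)) (n + e i) - rho T (Y.H (Y.Fm S m0 N)) n := by
    intro n hn i hiS hiT him
    have hsub : insert i T ⊆ S := Finset.insert_subset hiS hTS
    refine ⟨incr_le hiT hsub h (hP i hiS hiT) hN hs n, ?_⟩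
    refine (hm0 i hiS hiT n hn).trans ?_
    exact le_incr hiT hsub h (hP i hiS hiT) hF him fun n' _ hn'i => Fm_gen hN m0 n' hiS hn'i
  obtain ⟨m1, hm01, hm1⟩ := mono_region (S \ T)
    (fun n => rho T (Y.H N) n - rho T (Y.H (Y.Fm S m0 N)) n) n0 m0
    (fun n _ => by
      have h1 := rho_mono h hFT hNT (n0 := n) (fun n' _ => Fm_le hN m0 n')
      change 0 ≤ rho T (Y.H N) n - rho T (Y.H (Y.Fm S m0 N)) n
      linarith)
    (fun n hn i hi him => by
      obtain ⟨hiS, hiT⟩ := Finset.mem_sdiff.1 hi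
      obtain ⟨h1, h2⟩ := hinc n (hn.mono Finset.sdiff_subset) i hiS hiT him
      change rho T (Y.H N) (n + e i) - rho T (Y.H (Y.Fm S m0 N)) (n + e i) ≤
        rho T (Y.H N) n - rho T (Y.H (Y.Fm S m0 N)) n
      linarith)
  refine ⟨m1, fun n hn i hiS hiT him => ?_⟩
  -- the increment equals the rank in one direction more
  have key : ∀ n, Agr S n n0 → m1 ≤ n i →
      rho T (Y.H N) (n + e i) - rho T (Y.H N) n = rho (insert i T) (Y.H N) n := by
    intro n hn him
    let n' : ι → ℕ := fun j => if j ∈ T then n0 j else n j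
    have hag : Agr T n n' := fun j hj => by simp [n', hj]
    have hn' : Agr (S \ T) n' n0 := by
      intro j hj
      by_cases hjT : j ∈ T
      · simp [n', hjT]
      · simp only [n', if_neg hjT]
        exact hn j fun hjS => hj (Finset.mem_sdiff.2 ⟨hjS, hjT⟩)
    have hn'i : n' i = n i := by simp [n', hiT]
    have h1 := hm1 n' hn' i (Finset.mem_sdiff.2 ⟨hiS, hiT⟩) (by rw [hn'i]; exact him)
    have a1 : rho T (Y.H N) n = rho T (Y.H N) n' := rho_indep (h.aff hNT _) hag
    have a2 : rho T (Y.H N) (n + e i) = rho T (Y.H N) (n' + e i) :=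
      rho_indep (h.aff hNT _) (hag.add _)
    have a3 : rho T (Y.H (Y.Fm S m0 N)) n = rho T (Y.H (Y.Fm S m0 N)) n' :=
      rho_indep (h.aff hFT _) hag
    have a4 : rho T (Y.H (Y.Fm S m0 N)) (n + e i) = rho T (Y.H (Y.Fm S m0 N)) (n' + e i) :=
      rho_indep (h.aff hFT _) (hag.add _)
    obtain ⟨h2, h3⟩ := hinc n hn i hiS hiT (hm01.trans him)
    linarith
  have k1 := key n hn him
  have k2 := key (n + e i) (hn.add_e hiS) (him.trans (le_add_e n i i))
  have hsub : insert i T ⊆ S := Finset.insert_subset hiS hTS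
  have k3 : rho (insert i T) (Y.H N) (n + e i) = rho (insert i T) (Y.H N) n :=
    rho_indep ((hP i hiS hiT).aff (hN.mono hsub) _)
      ((Agr.refl _ n).add_e (Finset.mem_insert_self i T))
  unfold D2
  linarith

/-- Part 1: saturated families -/
theorem part1 [Fintype ι] {S : Finset ι} (IH : ∀ T, T ⊂ S → Y.PS T)
    {N : (ι → ℕ) → Submodule k R} (hN : Y.Stab S N) (hs : Y.Sat S N) (n0 : ι → ℕ) :
    ∃ m : ℕ, Y.Gen S N n0 m ∧ Aff S (Y.H N) n0 m := by
  have main : ∀ c : ℕ, ∀ T, T ⊂ S → (S \ T).card = c → ∃ m, Y.Star S T N n0 m := by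
    intro c
    induction c using Nat.strong_induction_on with
    | _ c ih =>
      intro T hT hc
      by_cases hlast : ∃ i, i ∉ T ∧ S = insert i T
      · obtain ⟨i, hi, hSi⟩ := hlast
        exact star_last hi hSi (IH T hT) hN hs n0
      · have hins : ∀ i ∈ S, i ∉ T → insert i T ⊂ S := by
          intro i hiS hiT
          refine Finset.ssubset_iff_subset_ne.2 ⟨Finset.insert_subset hiS hT.1, fun h' => ?_⟩
          exact hlast ⟨i, hiT, h'.symm⟩
        refine star_of_full hT.1 (IH T hT) (fun i hiS hiT => IH _ (hins i hiS hiT)) hN hs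
          fun i hiS hiT => ?_
        obtain ⟨m, hm⟩ := ih (S \ insert i T).card (by
          rw [← hc]
          refine Finset.card_lt_card (Finset.ssubset_iff_of_subset ?_ |>.2 ⟨i, ?_, ?_⟩)
          · exact Finset.sdiff_subset_sdiff (Finset.Subset.refl S) (Finset.subset_insert i T)
          · exact Finset.mem_sdiff.2 ⟨hiS, hiT⟩
          · simp) _ (hins i hiS hiT) rfl
        exact full_of_star (hins i hiS hiT).1 (IH _ (hins i hiS hiT)) hN hs hm
  by_cases hS : S = ∅
  · subst hS
    exact ⟨0, fun _ _ i hi => absurd hi (Finset.notMem_empty i),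
      fun _ _ _ i hi => absurd hi (Finset.notMem_empty i)⟩
  obtain ⟨m, hm⟩ := main _ ∅ (Finset.empty_ssubset.2 (Finset.nonempty_iff_ne_empty.2 hS)) rfl
  have hD : ∀ n, Agr S n n0 → ∀ i ∈ S, m ≤ n i →
      Y.H N (n + e i + e i) - 2 * Y.H N (n + e i) + Y.H N n = 0 := by
    intro n hn i hi him
    have h1 := hm n hn i hi (Finset.notMem_empty i) him
    unfold D2 at h1
    rwa [rho_empty, rho_empty, rho_empty] at h1
  refine ⟨m + 1, ?_, fun n hn hall i hi => hD n hn i hi (by have := hall i hi; omega)⟩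
  intro n hn i hi him
  obtain ⟨n', rfl⟩ : ∃ n', n = n' + e i := ⟨n - e i, (sub_add_one (by omega)).symm⟩
  have hn' : Agr S n' n0 := by
    intro j hj
    have h1 := hn j hj
    rwa [add_e_ne _ (fun h' : j = i => hj (h' ▸ hi))] at h1
  have h1 := hD n' hn' i hi (by rw [add_e_same] at him; omega)
  have h2 := H_E1 hN i n'
  have h3 : Y.H (Y.cfam i N) n' ≤ Y.H N n' := H_mono hN (hs i hi n')
  have h4 : Y.vfam i N (n' + e i + e i) = N (n' + e i + e i) := by
    refine eq_of_rk ?_ (vfam_le hN hi _) (hN.fin _) ?_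
    · rw [vfam_add]
      exact le_sup_right
    · change Y.H N (n' + e i + e i) ≤ Y.H (Y.vfam i N) (n' + e i + e i)
      linarith
  rw [← h4, vfam_add]

end Sys

end Pool.Agent.Lib.NOreX
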