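import Mathlib

/-!
# NOreX/Defs: multi-filtered algebras of double Ore type
-/

set_option autoImplicit false

namespace Pool.Agent.Lib.NOreX

variable {ι : Type} [DecidableEq ι] {k R : Type*} [Field k] [Ring R] [Algebra k R]

/-- the sum of the `F m` with `m ≺ n` -/
def low (lt : (ι → ℕ) → (ι → ℕ) → Prop) (F : (ι → ℕ) → Submodule k R) (n : ι → ℕ) :
    Submodule k R := ⨆ m : ι → ℕ, ⨆ _ : lt m n, F m

/-- `R` with the filtration `F`, indexed by the vectors `ι → ℕ` with the order `lt`, is of double Ore type:
the associated graded algebra is generated in the degrees of the unit vectors in every order,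
its component of degree `n` has the dimension of a tensor product of polynomial rings, in two
variables for the directions in `I` and in one variable for the others, and the product of two nonzero
elements of the degree of a unit vector in `I` is not zero. -/
structure IsDoubleOre (I : Finset ι) (lt : (ι → ℕ) → (ι → ℕ) → Prop)
    (F : (ι → ℕ) → Submodule k R) : Prop where
  mono : ∀ m n, lt m n → F m ≤ F n
  exh : ∀ x : R, ∃ n, x ∈ F n
  one : (1 : R) ∈ F 0
  mul : ∀ m n, F m * F n ≤ F (m + n)
  gen : ∀ m n, F (m + n) ≤ F m * F n ⊔ low lt F (m + n)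
  dim : ∀ n, Module.finrank k ((F n).map (low lt F n).mkQ) = ∏ i ∈ I, (n i + 1)
  reg : ∀ i ∈ I, ∀ u ∈ F (Pi.single i 1), ∀ w ∈ F (Pi.single i 1),
    u * w ∈ low lt F (Pi.single i 1 + Pi.single i 1) →
      u ∈ low lt F (Pi.single i 1) ∨ w ∈ low lt F (Pi.single i 1)

end Pool.Agent.Lib.NOreX
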