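import Pool.Agent.Lib.NOreX.Core

/-!
# NOreX/Hat: the saturation, every stable family is generated in a box
-/

set_option autoImplicit false

namespace Pool.Agent.Lib.NOreX

variable {ι : Type} {k R : Type*} [DecidableEq ι] [Field k] [Ring R] [Algebra k R]

namespace Sys

variable {Y : Sys ι k R}

/-- the vector with the entries `p` in `S` -/
def ones (S : Finset ι) (p : ℕ) : ι → ℕ := fun j => if j ∈ S then p else 0

theorem ones_supp (S : Finset ι) (p : ℕ) : ∀ j, j ∉ S → ones S p j = 0 := fun j hj => by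
  simp [ones, hj]

theorem ones_add (S : Finset ι) (p q : ℕ) : ones S (p + q) = ones S p + ones S q := by
  funext j
  by_cases hj : j ∈ S <;> simp [ones, hj]

theorem ones_zero (S : Finset ι) : ones S 0 = 0 := by
  funext j
  by_cases hj : j ∈ S <;> simp [ones, hj]

variable (Y) in
/-- elements which are moved into `N` by the degree `(p, ..., p)` -/
def Cp (S : Finset ι) (N : (ι → ℕ) → Submodule k R) (p : ℕ) (n : ι → ℕ) : Submodule k R :=
  Y.U n ⊓ colon (Y.U (ones S p)) (N (n + ones S p))

theorem Cp_mul (S : Finset ι) (N : (ι → ℕ) → Submodule k R) (p : ℕ) (n : ι → ℕ) :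
    Y.U (ones S p) * Y.Cp S N p n ≤ N (n + ones S p) :=
  (mul_mr inf_le_right).trans (mul_colon_le _ _)

theorem le_Cp {S : Finset ι} {N : (ι → ℕ) → Submodule k R} (hN : Y.Stab S N) (p : ℕ) (n : ι → ℕ) :
    N n ≤ Y.Cp S N p n :=
  le_inf (hN.hi n) (le_colon.2 (hN.mul' n _ (ones_supp S p)))

theorem Cp_mono {S : Finset ι} {N : (ι → ℕ) → Submodule k R} (hN : Y.Stab S N) {p q : ℕ}
    (hpq : p ≤ q) (n : ι → ℕ) : Y.Cp S N p n ≤ Y.Cp S N q n := by
  obtain ⟨d, rfl⟩ := Nat.exists_eq_add_of_le hpq
  refine le_inf inf_le_left (le_colon.2 ?_)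
  rw [add_comm p d, ones_add]
  refine split (ones S d) (ones S p) n inf_le_left ?_ ?_
  · refine (mul_mr (Cp_mul S N p n)).trans ((hN.mul' _ _ (ones_supp S d)).trans ?_)
    rw [add_assoc, add_comm (ones S p)]
  · rw [add_comm _ n]
    exact hN.lo _

theorem Cp_stab {S : Finset ι} {N : (ι → ℕ) → Submodule k R} (hN : Y.Stab S N) (p : ℕ) :
    Y.Stab S (Y.Cp S N p) := by
  refine ⟨fun n => (hN.lo n).trans (le_Cp hN p n), fun n => inf_le_left, fun i hi n => ?_⟩
  refine le_inf ?_ (le_colon.2 ?_)
  · refine (mul_mr inf_le_left).trans ((Y.UU _ _).trans ?_)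
    rw [add_comm]
  · refine swap (ones S p) (e i) n inf_le_left ?_ ?_
    · refine (mul_mr (Cp_mul S N p n)).trans ((hN.mul i hi _).trans ?_)
      rw [add_assoc, add_assoc, add_comm (ones S p)]
    · rw [show ones S p + e i + n = n + e i + ones S p by
        rw [add_comm _ n, add_comm (ones S p), ← add_assoc]]
      exact hN.lo _

variable (Y) in
/-- the saturation -/
def hat (S : Finset ι) (N : (ι → ℕ) → Submodule k R) (n : ι → ℕ) : Submodule k R :=
  ⨆ p, Y.Cp S N p n

theorem hat_eq {S : Finset ι} {N : (ι → ℕ) → Submodule k R} (hN : Y.Stab S N) (n : ι → ℕ) :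
    ∃ p, Y.hat S N n = Y.Cp S N p n := by
  let T : Set ℕ := {t | ∃ p, (Y.H Y.U n - Y.H (Y.Cp S N p) n).toNat = t}
  have hT : T.Nonempty := ⟨_, 0, rfl⟩
  obtain ⟨p, hp⟩ := Nat.sInf_mem hT
  have hU := U_stab (Y := Y) S
  have hle : ∀ q, Y.H (Y.Cp S N q) n ≤ Y.H Y.U n := fun q => H_mono hU inf_le_left
  refine ⟨p, le_antisymm (iSup_le fun q => ?_) (le_iSup (fun p => Y.Cp S N p n) p)⟩
  rcases le_total q p with h | h
  · exact Cp_mono hN h n
  · refine le_of_eq (eq_of_rk ((Cp_stab hN p).lo n) (Cp_mono hN h n) ((Cp_stab hN q).fin n) ?_).symm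
    have h1 : sInf T ≤ (Y.H Y.U n - Y.H (Y.Cp S N q) n).toNat := Nat.sInf_le ⟨q, rfl⟩
    have h2 := hle p
    have h3 := hle q
    change Y.H (Y.Cp S N q) n ≤ Y.H (Y.Cp S N p) n
    omega

theorem le_hat {S : Finset ι} {N : (ι → ℕ) → Submodule k R} (p : ℕ) (n : ι → ℕ) :
    Y.Cp S N p n ≤ Y.hat S N n := le_iSup (fun p => Y.Cp S N p n) p

theorem hat_stab {S : Finset ι} {N : (ι → ℕ) → Submodule k R} (hN : Y.Stab S N) :
    Y.Stab S (Y.hat S N) := by
  refine ⟨fun n => ((Cp_stab hN 0).lo n).trans (le_hat 0 n), fun n => iSup_le fun p => inf_le_left,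
    fun i hi n => ?_⟩
  obtain ⟨p, hp⟩ := hat_eq hN n
  rw [hp]
  exact ((Cp_stab hN p).mul i hi n).trans (le_hat p _)

theorem hat_sat {S : Finset ι} {N : (ι → ℕ) → Submodule k R} (hN : Y.Stab S N) :
    Y.Sat S (Y.hat S N) := by
  intro i hi n
  obtain ⟨p, hp⟩ := hat_eq hN (n + e i)
  have h1 : Y.U (e i) * Y.cfam i (Y.hat S N) n ≤ Y.Cp S N p (n + e i) := by
    rw [← hp]
    exact (mul_mr inf_le_right).trans (mul_colon_le _ _)
  refine le_trans (le_inf inf_le_left (le_colon.2 ?_)) (le_hat (p + 1) n)
  have e1 : ones S (p + 1) = (ones S 1 - e i) + (ones S p + e i) := by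
    funext j
    by_cases hj : j = i
    · subst hj
      simp only [ones, if_pos hi, Pi.add_apply, Pi.sub_apply, e_same]
      omega
    · by_cases hjS : j ∈ S
      · simp only [ones, if_pos hjS, Pi.add_apply, Pi.sub_apply, e_ne hj]
        omega
      · simp [ones, hjS, e_ne hj]
  have hsupp : ∀ j, j ∉ S → (ones S 1 - e i) j = 0 := by
    intro j hj
    simp [ones, hj]
  rw [e1]
  refine split (ones S 1 - e i) (ones S p + e i) n inf_le_left ?_ ?_
  · have h2 : Y.U (ones S p + e i) * Y.cfam i (Y.hat S N) n ≤ N (n + (ones S p + e i)) := by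
      refine split (ones S p) (e i) n inf_le_left ?_ ?_
      · refine (mul_mr h1).trans ((Cp_mul S N p _).trans ?_)
        rw [add_assoc, add_comm (e i)]
      · rw [add_comm _ n]
        exact hN.lo _
    refine (mul_mr h2).trans ((hN.mul' _ _ hsupp).trans ?_)
    rw [add_assoc, add_comm (ones S p + e i)]
  · rw [add_comm _ n]
    exact hN.lo _

/-- **every stable family is generated in a box** -/
theorem ps_all [Fintype ι] (S : Finset ι) : Y.PS S := by
  induction S using Finset.strongInduction with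
  | H S IH =>
    intro N hN n0
    obtain ⟨m, hgen, haff⟩ := part1 IH (hat_stab hN) (hat_sat hN) n0
    obtain ⟨p, hp⟩ := hat_eq hN (pt S n0 m)
    have hpt := pt_agr S n0 m
    -- the hat is generated by its value at the corner
    have h1 : ∀ n, Agr S n n0 → (∀ j ∈ S, m ≤ n j) →
        Y.hat S N n ≤ Y.U (n - pt S n0 m) * Y.hat S N (pt S n0 m) ⊔ Y.L n := by
      intro n hn hm
      refine up_induct (P := fun n => Y.hat S N n ≤
        Y.U (n - pt S n0 m) * Y.hat S N (pt S n0 m) ⊔ Y.L n) S (pt S n0 m) ?_ ?_ n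
        (hn.trans hpt.symm) (fun j hj => by
          rw [pt_mem n0 m hj]
          exact hm j hj)
      · rw [tsub_self]
        exact (le_zero_mul _).trans le_sup_left
      · intro n' a1 a2 a3 i hi
        have hm' : m ≤ n' i := by
          have := a2 i hi
          rwa [pt_mem n0 m hi] at this
        have hle : ∀ j, pt S n0 m j ≤ n' j := by
          intro j
          by_cases hj : j ∈ S
          · exact a2 j hj
          · exact le_of_eq (a1 j hj).symm
        have h2 : n' + e i - pt S n0 m = e i + (n' - pt S n0 m) := by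
          funext j
          have := hle j
          simp only [Pi.add_apply, Pi.sub_apply]
          omega
        refine (hgen n' (a1.trans hpt) i hi hm').trans (sup_le ?_ le_sup_right)
        refine (mul_mr a3).trans ?_
        rw [Submodule.mul_sup, h2, ← mul_assoc]
        refine sup_le ((mul_ml (Y.UU _ _)).trans le_sup_left) ?_
        refine le_trans ?_ le_sup_right
        rw [add_comm n']
        exact Y.UL _ _
    -- in the corner the family is saturated
    have h2 : ∀ n, Agr S n n0 → (∀ j ∈ S, m + p ≤ n j) → Y.hat S N n ≤ N n := by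
      intro n hn hm
      refine (h1 n hn fun j hj => (Nat.le_add_right m p).trans (hm j hj)).trans
        (sup_le ?_ (hN.lo n))
      have e1 : n - pt S n0 m = (n - pt S n0 m - ones S p) + ones S p := by
        funext j
        by_cases hj : j ∈ S
        · have := hm j hj
          simp only [Pi.add_apply, Pi.sub_apply, pt, ones, if_pos hj]
          omega
        · simp only [Pi.add_apply, Pi.sub_apply, pt, ones, if_neg hj]
          omega
      have e2 : pt S n0 m + ones S p + (n - pt S n0 m - ones S p) = n := by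
        funext j
        by_cases hj : j ∈ S
        · have := hm j hj
          simp only [Pi.add_apply, Pi.sub_apply, pt, ones, if_pos hj]
          omega
        · have := hn j hj
          simp only [Pi.add_apply, Pi.sub_apply, pt, ones, if_neg hj]
          omega
      have hsupp : ∀ j, j ∉ S → (n - pt S n0 m - ones S p) j = 0 := by
        intro j hj
        have := hn j hj
        simp only [Pi.sub_apply, pt, ones, if_neg hj]
        omega
      rw [e1, hp]
      refine split _ _ (pt S n0 m) inf_le_left ?_ ?_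
      · refine (mul_mr (Cp_mul S N p _)).trans ((hN.mul' _ _ hsupp).trans ?_)
        rw [e2]
      · rw [show n - pt S n0 m - ones S p + ones S p + pt S n0 m = n by
          rw [add_assoc, add_comm, add_comm (ones S p), e2]]
        exact hN.lo n
    have h3 : ∀ n, Agr S n n0 → (∀ j ∈ S, m + p ≤ n j) → Y.hat S N n = N n := fun n hn hm =>
      le_antisymm (h2 n hn hm) ((le_Cp hN 0 n).trans (le_hat 0 n))
    have hbig : Aff S (Y.H N) n0 (m + p) := by
      intro n hn hm i hi
      have h4 := haff n hn (fun j hj => (Nat.le_add_right m p).trans (hm j hj)) i hi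
      have hm1 : ∀ j ∈ S, m + p ≤ (n + e i) j := fun j hj => (hm j hj).trans (le_add_e n i j)
      have hm2 : ∀ j ∈ S, m + p ≤ (n + e i + e i) j := fun j hj => (hm1 j hj).trans (le_add_e _ i j)
      unfold H at h4 ⊢
      rwa [h3 n hn hm, h3 _ (hn.add_e hi) hm1, h3 _ ((hn.add_e hi).add_e hi) hm2] at h4
    obtain ⟨q, hq⟩ := box_lemma S (fun n i => N (n + e i) ≤ Y.U (e i) * N n ⊔ Y.L (n + e i)) n0
      (fun K hK n1 hn1 => by
        by_cases hKS : K = S
        · subst hKS
          refine ⟨m + p, fun n hn hm i hi => ?_⟩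
          have hn' := hn.trans hn1
          have h4 := hgen n hn' i hi ((Nat.le_add_right m p).trans (hm i hi))
          rw [h3 n hn' hm] at h4
          exact ((le_Cp hN 0 _).trans (le_hat 0 _)).trans h4
        · obtain ⟨m', hm', -⟩ := IH K (Finset.ssubset_iff_subset_ne.2 ⟨hK, hKS⟩) N (hN.mono hK) n1
          exact ⟨m', fun n hn hm i hi => hm' n hn i hi (hm i hi)⟩)
    refine ⟨max (m + p) q, fun n hn i hi him => hq n hn i hi ((le_max_right _ _).trans him),
      hbig.mono (le_max_left _ _)⟩

end Sys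

end Pool.Agent.Lib.NOreX
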