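import Pool.Agent.Lib.NOreX.GS
import Pool.Agent.Lib.NOreX.Defs

/-!
# NOreX/Mk: algebras of double Ore type satisfy the rank two condition
-/

set_option autoImplicit false

namespace Pool.Agent.Lib.NOreX

variable {ι : Type} [DecidableEq ι] {k R : Type*} [Field k] [Ring R] [Algebra k R]
  {I : Finset ι} {lt : (ι → ℕ) → (ι → ℕ) → Prop} {F : (ι → ℕ) → Submodule k R}

theorem low_le_iff {n : ι → ℕ} {X : Submodule k R} :
    low lt F n ≤ X ↔ ∀ m, lt m n → F m ≤ X := by
  unfold low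
  simp only [iSup_le_iff]

theorem le_low {m n : ι → ℕ} (h : lt m n) : F m ≤ low lt F n := low_le_iff.1 le_rfl m h

theorem prod_add_mem {i : ι} (hi : i ∈ I) (n : ι → ℕ) :
    ∏ j ∈ I, ((n + e i) j + 1) = (n i + 1 + 1) * ∏ j ∈ I.erase i, (n j + 1) := by
  rw [← Finset.mul_prod_erase I _ hi]
  have h1 : (n + e i) i = n i + 1 := by
    simp [e]
  have h2 : ∏ j ∈ I.erase i, ((n + e i) j + 1) = ∏ j ∈ I.erase i, (n j + 1) := by
    refine Finset.prod_congr rfl fun j hj => ?_
    have h3 : (n + e i) j = n j := by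
      simp [e, Pi.single_eq_of_ne (Finset.ne_of_mem_erase hj)]
    rw [h3]
  rw [h1, h2]

theorem prod_mem {i : ι} (hi : i ∈ I) (n : ι → ℕ) :
    ∏ j ∈ I, (n j + 1) = (n i + 1) * ∏ j ∈ I.erase i, (n j + 1) :=
  (Finset.mul_prod_erase I (fun j => n j + 1) hi).symm

theorem prod_add_add_mem {i : ι} (hi : i ∈ I) (n : ι → ℕ) :
    ∏ j ∈ I, ((n + e i + e i) j + 1) = (n i + 1 + 1 + 1) * ∏ j ∈ I.erase i, (n j + 1) := by
  rw [prod_add_mem hi]
  have h1 : (n + e i) i = n i + 1 := by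
    simp [e]
  have h2 : ∏ j ∈ I.erase i, ((n + e i) j + 1) = ∏ j ∈ I.erase i, (n j + 1) := by
    refine Finset.prod_congr rfl fun j hj => ?_
    have h3 : (n + e i) j = n j := by
      simp [e, Pi.single_eq_of_ne (Finset.ne_of_mem_erase hj)]
    rw [h3]
  rw [h1, h2]

theorem prod_add_notMem {i : ι} (hi : i ∉ I) (n : ι → ℕ) :
    ∏ j ∈ I, ((n + e i) j + 1) = ∏ j ∈ I, (n j + 1) := by
  refine Finset.prod_congr rfl fun j hj => ?_
  have h3 : (n + e i) j = n j := by
    have h4 : j ≠ i := fun h5 => hi (h5 ▸ hj)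
    simp [e, Pi.single_eq_of_ne h4]
  rw [h3]

namespace IsDoubleOre

theorem gs (h : IsDoubleOre I lt F) (hadd : ∀ a b c, lt a b → lt (a + c) (b + c)) :
    GS F (low lt F) where
  hLU n := low_le_iff.2 fun m hm => h.mono m n hm
  UU := h.mul
  UL m n := by
    rw [← le_colon, low_le_iff]
    intro m' hm'
    rw [le_colon]
    refine (h.mul m m').trans (le_low ?_)
    rw [add_comm m m', add_comm m n]
    exact hadd m' n m hm'
  LU m n := by
    unfold low
    rw [Submodule.iSup_mul]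
    refine iSup_le fun m' => ?_
    rw [Submodule.iSup_mul]
    refine iSup_le fun hm' => ?_
    exact (h.mul m' n).trans (le_low (hadd m' m n hm'))
  gen := h.gen

theorem dm_eq (h : IsDoubleOre I lt F) (n : ι → ℕ) : dm F (low lt F) n = ∏ i ∈ I, (n i + 1) :=
  h.dim n

theorem dm_pos (h : IsDoubleOre I lt F) (n : ι → ℕ) : 0 < dm F (low lt F) n := by
  rw [h.dm_eq]
  exact Finset.prod_pos fun i _ => Nat.succ_pos _

theorem exists_dat (h : IsDoubleOre I lt F) (hadd : ∀ a b c, lt a b → lt (a + c) (b + c))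
    {i : ι} (hi : i ∈ I) : ∃ v1 v2 u1 u2 : R, Dat F (low lt F) (e i) v1 v2 u1 u2 := by
  have h1 : ∏ j ∈ I.erase i, ((0 : ι → ℕ) j + 1) = 1 := by
    refine Finset.prod_eq_one fun j _ => ?_
    rw [Pi.zero_apply, zero_add]
  refine NOreX.exists_dat (h.gs hadd) (e i) ?_ ?_ (h.reg i hi)
  · have h2 := prod_add_mem hi (0 : ι → ℕ)
    rw [zero_add, h1, Pi.zero_apply] at h2
    rw [h.dm_eq, h2]
    norm_num
  · have h2 := prod_add_add_mem hi (0 : ι → ℕ)
    rw [zero_add, h1, Pi.zero_apply] at h2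
    rw [h.dm_eq, h2]
    norm_num

theorem dm_rel (h : IsDoubleOre I lt F) {i : ι} (hi : i ∈ I) (n : ι → ℕ) :
    dm F (low lt F) (n + e i + e i) + dm F (low lt F) n = 2 * dm F (low lt F) (n + e i) := by
  rw [h.dm_eq, h.dm_eq, h.dm_eq, prod_add_add_mem hi, prod_add_mem hi, prod_mem hi]
  ring

theorem rg (h : IsDoubleOre I lt F) (hadd : ∀ a b c, lt a b → lt (a + c) (b + c))
    {i : ι} (hi : i ∈ I) (n : ι → ℕ) : Rg F (low lt F) (e i) n := by
  obtain ⟨v1, v2, u1, u2, D⟩ := h.exists_dat hadd hi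
  have key : ∀ N : ℕ, ∀ n : ι → ℕ, n i = N → Rg F (low lt F) (e i) n := by
    intro N
    induction N with
    | zero =>
      intro n hn
      refine rg_of_dm (h.gs hadd) (e i) n v1 v2 D.hv1 D.hv2 D.sv (h.dm_pos n) ?_
      rw [h.dm_eq, h.dm_eq, prod_add_mem hi, prod_mem hi, hn]
      omega
    | succ N ih =>
      intro n hn
      have h1 : e i ≤ n := by
        intro j
        by_cases hj : j = i
        · rw [hj, hn]
          simp [e]
        · simp [e, Pi.single_eq_of_ne hj]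
      have h2 := tsub_add_cancel_of_le h1
      have h3 : (n - e i) i = N := by
        rw [Pi.sub_apply, hn]
        simp [e]
      have h4 := rg_step (h.gs hadd) (e i) (n - e i) v1 v2 u1 u2 D (h.dm_pos _) (h.dm_pos _)
        (h.dm_rel hi _) (ih _ h3)
      rw [h2] at h4
      exact h4
  exact key (n i) n rfl

theorem uzero (h : IsDoubleOre I lt F) (hadd : ∀ a b c, lt a b → lt (a + c) (b + c)) :
    F 0 ≤ 1 ⊔ low lt F 0 := by
  have h1 : dm F (low lt F) 0 = 1 := by
    rw [h.dm_eq]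
    refine Finset.prod_eq_one fun j _ => ?_
    rw [Pi.zero_apply, zero_add]
  have h2 : (1 : R) ∉ low lt F 0 := by
    intro h3
    have h4 : (F 0).map (low lt F 0).mkQ = ⊥ := by
      rw [eq_bot_iff]
      rintro _ ⟨x, hx, rfl⟩
      rw [Submodule.mem_bot, mkQ_zero]
      have h5 := (h.gs hadd).UL 0 0 (Submodule.mul_mem_mul hx h3)
      rw [mul_one, add_zero] at h5
      exact h5
    unfold dm at h1
    rw [h4, finrank_bot] at h1
    exact zero_ne_one h1
  obtain ⟨y, -, -, h3⟩ := line_of_dim _ h1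
  obtain ⟨a, ha⟩ := h3 ((low lt F 0).mkQ 1) (Submodule.mem_map_of_mem h.one)
  have ha0 : a ≠ 0 := by
    intro h4
    rw [h4, zero_smul] at ha
    exact h2 (mkQ_zero.1 ha.symm)
  intro x hx
  obtain ⟨b, hb⟩ := h3 ((low lt F 0).mkQ x) (Submodule.mem_map_of_mem hx)
  have h4 : x - (b * a⁻¹) • (1 : R) ∈ low lt F 0 := by
    rw [← mkQ_zero, map_sub, map_smul, ← ha, ← hb, smul_smul, mul_assoc, inv_mul_cancel₀ ha0,
      mul_one, sub_self]
  have h5 : x = (b * a⁻¹) • (1 : R) + (x - (b * a⁻¹) • (1 : R)) := by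
    rw [add_sub_cancel]
  rw [h5]
  exact Submodule.add_mem_sup (Submodule.smul_mem _ _ (Submodule.one_le.1 le_rfl)) h4

/-- the system of an algebra of double Ore type -/
def sys (h : IsDoubleOre I lt F) (hadd : ∀ a b c, lt a b → lt (a + c) (b + c)) : Sys ι k R where
  U := F
  L := low lt F
  hLU := (h.gs hadd).hLU
  fin n := Module.finite_of_finrank_pos (h.dm_pos n)
  one_mem := h.one
  uzero := h.uzero hadd
  UU := (h.gs hadd).UU
  UL := (h.gs hadd).UL
  LU := (h.gs hadd).LU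
  gen := (h.gs hadd).gen
  E1 i n W hl hW := by
    by_cases hi : i ∈ I
    · obtain ⟨v1, v2, u1, u2, D⟩ := h.exists_dat hadd hi
      exact e1_of_rt (h.gs hadd) (e i) n v1 v2 u1 u2 D (h.dm_pos _) (h.dm_pos _)
        (h.dm_rel hi _) (h.rg hadd hi n) W hl hW
    · have h0 : dm F (low lt F) (e i) = 1 := by
        have h1 := prod_add_notMem hi (0 : ι → ℕ)
        rw [zero_add] at h1
        rw [h.dm_eq, h1]
        refine Finset.prod_eq_one fun j _ => ?_
        rw [Pi.zero_apply, zero_add]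
      refine e1_of_line (h.gs hadd) (e i) n h0 (h.dm_pos _) ?_ ?_ W hl hW
      · rw [h.dm_eq, h.dm_eq, prod_add_notMem hi]
      · rw [h.dm_eq, h.dm_eq, prod_add_notMem hi, prod_add_notMem hi]

end IsDoubleOre

end Pool.Agent.Lib.NOreX
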