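import Pool.Agent.Lib.NOreX.Hat
import Pool.Agent.Lib.NOreX.Mk

/-!
# NOreX/Noe: algebras of double Ore type are left noetherian
-/

set_option autoImplicit false

namespace Pool.Agent.Lib.NOreX

variable {ι : Type} [DecidableEq ι] {k R : Type*} [Field k] [Ring R] [Algebra k R]
  {I : Finset ι} {lt : (ι → ℕ) → (ι → ℕ) → Prop} {F : (ι → ℕ) → Submodule k R}

theorem mem_low [IsWellOrder (ι → ℕ) lt] (hmono : ∀ m n, lt m n → F m ≤ F n) {n : ι → ℕ} {x : R}
    (hx : x ∈ low lt F n) : x = 0 ∨ ∃ m, lt m n ∧ x ∈ F m := by
  let X : Submodule k R :=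
    { carrier := {x | x = 0 ∨ ∃ m, lt m n ∧ x ∈ F m}
      add_mem' := by
        rintro a b (rfl | ⟨m, hm, ha⟩) hb
        · rw [zero_add]
          exact hb
        · rcases hb with rfl | ⟨m', hm', hb⟩
          · rw [add_zero]
            exact Or.inr ⟨m, hm, ha⟩
          · rcases trichotomous_of lt m m' with h | h | h
            · exact Or.inr ⟨m', hm', (F m').add_mem (hmono _ _ h ha) hb⟩
            · rw [← h] at hb
              exact Or.inr ⟨m, hm, (F m).add_mem ha hb⟩
            · exact Or.inr ⟨m, hm, (F m).add_mem ha (hmono _ _ h hb)⟩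
      zero_mem' := Or.inl rfl
      smul_mem' := by
        rintro c a (rfl | ⟨m, hm, ha⟩)
        · rw [smul_zero]
          exact Or.inl rfl
        · exact Or.inr ⟨m, hm, (F m).smul_mem c ha⟩ }
  have h1 : low lt F n ≤ X := by
    rw [low_le_iff]
    intro m hm y hy
    exact Or.inr ⟨m, hm, hy⟩
  exact h1 hx

/-- finitely many generators modulo a subspace -/
theorem fin_gens (M P : Submodule k R) (hf : Module.Finite k (P.map M.mkQ)) :
    ∃ S : Finset R, (S : Set R) ⊆ P ∧ P ≤ Submodule.span k (S : Set R) ⊔ M := by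
  obtain ⟨T, hT⟩ := Module.Finite.iff_fg.1 hf
  have h1 : (T : Set (R ⧸ M)) ⊆ M.mkQ '' (P : Set R) := by
    intro y hy
    have h2 : y ∈ P.map M.mkQ := by
      rw [← hT]
      exact Submodule.subset_span hy
    exact h2
  classical
  obtain ⟨S, hS, hS'⟩ := Finset.subset_set_image_iff.1 h1
  refine ⟨S, hS, ?_⟩
  have h3 : (Submodule.span k (S : Set R)).map M.mkQ = P.map M.mkQ := by
    rw [Submodule.map_span, ← hT, ← hS', Finset.coe_image]
  have h4 : P ≤ (P.map M.mkQ).comap M.mkQ := Submodule.le_comap_map _ _
  refine h4.trans ?_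
  rw [← h3, Submodule.comap_map_mkQ, sup_comm]

theorem IsDoubleOre.noeth [Fintype ι] [IsWellOrder (ι → ℕ) lt] (h : IsDoubleOre I lt F)
    (hadd : ∀ a b c, lt a b → lt (a + c) (b + c)) : IsNoetherianRing R := by
  have hG := h.gs hadd
  rw [isNoetherianRing_iff_ideal_fg]
  intro A
  let A' : Submodule k R := A.restrictScalars k
  let N : (ι → ℕ) → Submodule k R := fun n => (A' ⊓ F n) ⊔ low lt F n
  have hN : (h.sys hadd).Stab Finset.univ N := by
    refine ⟨fun n => le_sup_right, fun n => sup_le inf_le_right (hG.hLU n), ?_⟩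
    intro i _ n
    change F (e i) * ((A' ⊓ F n) ⊔ low lt F n) ≤ (A' ⊓ F (n + e i)) ⊔ low lt F (n + e i)
    rw [Submodule.mul_sup]
    refine sup_le ?_ ?_
    · refine le_sup_of_le_left (le_inf ?_ ?_)
      · rw [Submodule.mul_le]
        intro x _ y hy
        exact A.mul_mem_left x hy.1
      · refine (mul_mr inf_le_right).trans ?_
        rw [add_comm n (e i)]
        exact hG.UU (e i) n
    · refine le_sup_of_le_right ?_
      rw [add_comm n (e i)]
      exact hG.UL (e i) n
  obtain ⟨m, hgen, -⟩ := (Sys.ps_all (Y := h.sys hadd) Finset.univ) N hN 0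
  have hgen' : ∀ n : ι → ℕ, ∀ i : ι, m ≤ n i →
      N (n + e i) ≤ F (e i) * N n ⊔ low lt F (n + e i) := fun n i hi =>
    hgen n (fun j hj => absurd (Finset.mem_univ j) hj) i (Finset.mem_univ i) hi
  -- generators
  have hS : ∀ n : ι → ℕ, ∃ S : Finset R, (S : Set R) ⊆ (A' ⊓ F n : Submodule k R) ∧
      (A' ⊓ F n : Submodule k R) ≤ Submodule.span k (S : Set R) ⊔ low lt F n := fun n =>
    fin_gens _ _ (fin_of_le inf_le_right (Module.finite_of_finrank_pos (h.dm_pos n)))
  choose S hS1 hS2 using hS
  let box : Set (ι → ℕ) := Set.Iic (fun _ => m)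
  have hbox : box.Finite := Set.finite_Iic _
  let J : Ideal R := Ideal.span (⋃ n ∈ box, (S n : Set R))
  have hJfg : J.FG := by
    refine Submodule.fg_span ?_
    exact hbox.biUnion fun n _ => (S n).finite_toSet
  have hJA : J ≤ A := by
    refine Ideal.span_le.2 ?_
    intro x hx
    rw [Set.mem_iUnion₂] at hx
    obtain ⟨n, _, hx⟩ := hx
    exact (hS1 n hx).1
  let J' : Submodule k R := J.restrictScalars k
  have key : ∀ s : ℕ, ∀ n : ι → ℕ, ∑ i, n i = s → N n ≤ (J' ⊓ F n) ⊔ low lt F n := by
    intro s
    induction s using Nat.strong_induction_on with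
    | _ s ih =>
      intro n hn
      by_cases hb : n ∈ box
      · refine sup_le ((hS2 n).trans (sup_le_sup_right ?_ _)) le_sup_right
        refine Submodule.span_le.2 ?_
        intro x hx
        refine ⟨?_, (hS1 n hx).2⟩
        exact Ideal.subset_span (Set.mem_iUnion₂.2 ⟨n, hb, hx⟩)
      · have h1 : ∃ i, m < n i := by
          by_contra h2
          push Not at h2
          exact hb h2
        obtain ⟨i, hi⟩ := h1
        have h2 : e i ≤ n := by
          intro j
          by_cases hj : j = i
          · rw [hj, e_same]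
            exact Nat.succ_le_of_lt (lt_of_le_of_lt (Nat.zero_le m) hi)
          · rw [e_ne hj]
            exact Nat.zero_le _
        have h3 := tsub_add_cancel_of_le h2
        have h4 : (n - e i) i = n i - 1 := by
          rw [Pi.sub_apply, e_same]
        have h5 := hgen' (n - e i) i (by omega)
        rw [h3] at h5
        have h6 : ∑ j, (n - e i) j < s := by
          have h7 : ∑ j, n j = ∑ j, (n - e i) j + ∑ j, e i j := by
            rw [← Finset.sum_add_distrib]
            refine Finset.sum_congr rfl fun j _ => ?_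
            have h8 := congrFun h3 j
            rw [Pi.add_apply] at h8
            exact h8.symm
          have h9 : ∑ j, e i j = 1 := by
            simp [e]
          omega
        have h7 := ih _ h6 (n - e i) rfl
        refine h5.trans (sup_le ?_ le_sup_right)
        refine (mul_mr h7).trans ?_
        rw [Submodule.mul_sup]
        have h8 : e i + (n - e i) = n := by
          rw [add_comm]
          exact h3
        refine sup_le ?_ ?_
        · refine le_sup_of_le_left (le_inf ?_ ?_)
          · rw [Submodule.mul_le]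
            intro x _ y hy
            exact J.mul_mem_left x hy.1
          · refine (mul_mr inf_le_right).trans ((hG.UU (e i) (n - e i)).trans ?_)
            rw [h8]
        · refine le_sup_of_le_right ((hG.UL (e i) (n - e i)).trans ?_)
          rw [h8]
  have hfin : ∀ n : ι → ℕ, (A' ⊓ F n : Submodule k R) ≤ J' := by
    intro n
    induction n using (IsWellFounded.wf (r := lt)).induction with
    | _ n ih =>
      intro x hx
      have h1 : x ∈ (J' ⊓ F n) ⊔ low lt F n := key _ n rfl (Submodule.mem_sup_left hx)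
      obtain ⟨y, hy, z, hz, rfl⟩ := Submodule.mem_sup.1 h1
      refine J'.add_mem hy.1 ?_
      have h2 : z ∈ A := by
        have h3 := A.sub_mem hx.1 (hJA hy.1)
        rw [add_sub_cancel_left] at h3
        exact h3
      rcases mem_low h.mono hz with h3 | ⟨m', hm', h3⟩
      · rw [h3]
        exact J'.zero_mem
      · exact ih m' hm' ⟨h2, h3⟩
  have hAJ : A = J := by
    refine le_antisymm ?_ hJA
    intro x hx
    obtain ⟨n, hn⟩ := h.exh x
    exact hfin n ⟨hx, hn⟩
  rw [hAJ]
  exact hJfg

end Pool.Agent.Lib.NOreX
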