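import Mathlib

/-!
# NOreX/Num: functions on `ι → ℕ`, mixed differences, stabilisation lemmas
-/

set_option autoImplicit false

namespace Pool.Agent.Lib.NOreX

variable {ι : Type} [DecidableEq ι]

/-- the unit vectors -/
def e (i : ι) : ι → ℕ := Pi.single i 1

theorem e_same (i : ι) : e i i = 1 := by simp [e]

theorem e_ne {i j : ι} (h : j ≠ i) : e i j = 0 := by simp [e, h]

theorem add_e_same (n : ι → ℕ) (i : ι) : (n + e i) i = n i + 1 := by simp [e_same]

theorem add_e_ne (n : ι → ℕ) {i j : ι} (h : j ≠ i) : (n + e i) j = n j := by simp [e_ne h]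

theorem le_add_e (n : ι → ℕ) (i j : ι) : n j ≤ (n + e i) j := by simp

/-- `n` and `m` agree off `T` -/
def Agr (T : Finset ι) (n m : ι → ℕ) : Prop := ∀ j, j ∉ T → n j = m j

omit [DecidableEq ι] in
theorem Agr.refl (T : Finset ι) (n : ι → ℕ) : Agr T n n := fun _ _ => rfl

omit [DecidableEq ι] in
theorem Agr.symm {T : Finset ι} {n m : ι → ℕ} (h : Agr T n m) : Agr T m n := fun j hj => (h j hj).symm

omit [DecidableEq ι] in
theorem Agr.trans {T : Finset ι} {n m k : ι → ℕ} (h : Agr T n m) (h' : Agr T m k) : Agr T n k :=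
  fun j hj => (h j hj).trans (h' j hj)

omit [DecidableEq ι] in
theorem Agr.mono {T T' : Finset ι} {n m : ι → ℕ} (hT : T ⊆ T') (h : Agr T n m) : Agr T' n m :=
  fun j hj => h j fun hj' => hj (hT hj')

theorem Agr.add_e {T : Finset ι} {n m : ι → ℕ} {i : ι} (hi : i ∈ T) (h : Agr T n m) :
    Agr T (n + e i) m := by
  intro j hj
  rw [add_e_ne n (fun h' : j = i => hj (h' ▸ hi))]
  exact h j hj

omit [DecidableEq ι] in
theorem Agr.add {T : Finset ι} {n m : ι → ℕ} (h : Agr T n m) (a : ι → ℕ) : Agr T (n + a) (m + a) := by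
  intro j hj
  simp [h j hj]

/-- upward induction in the directions of `T` -/
theorem up_induct {P : (ι → ℕ) → Prop} (T : Finset ι) (p : ι → ℕ) (h0 : P p)
    (hs : ∀ n, Agr T n p → (∀ j ∈ T, p j ≤ n j) → P n → ∀ i ∈ T, P (n + e i)) :
    ∀ n, Agr T n p → (∀ j ∈ T, p j ≤ n j) → P n := by
  suffices H : ∀ d : ℕ, ∀ n, Agr T n p → (∀ j ∈ T, p j ≤ n j) → ∑ j ∈ T, (n j - p j) = d → P n from
    fun n h1 h2 => H _ n h1 h2 rfl
  intro d
  induction d with
  | zero =>
    intro n h1 h2 h3
    have h4 : n = p := by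
      funext j
      by_cases hj : j ∈ T
      · have h5 := (Finset.sum_eq_zero_iff.1 h3) j hj
        have h6 := h2 j hj
        omega
      · exact h1 j hj
    rw [h4]
    exact h0
  | succ d ih =>
    intro n h1 h2 h3
    have h4 : ∃ i ∈ T, n i - p i ≠ 0 := by
      by_contra h5
      push Not at h5
      rw [Finset.sum_eq_zero h5] at h3
      omega
    obtain ⟨i, hi, hni⟩ := h4
    let n' : ι → ℕ := Function.update n i (n i - 1)
    have hn : n = n' + e i := by
      funext j
      by_cases hj : j = i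
      · subst hj
        rw [add_e_same]
        simp only [n', Function.update_self]
        omega
      · rw [add_e_ne _ hj]
        simp only [n', Function.update_of_ne hj]
    have hn'i : n' i = n i - 1 := by simp [n']
    have hn'j : ∀ j, j ≠ i → n' j = n j := fun j hj => by simp only [n', Function.update_of_ne hj]
    have a1 : Agr T n' p := by
      intro j hj
      rw [hn'j j (fun h => hj (h ▸ hi))]
      exact h1 j hj
    have a2 : ∀ j ∈ T, p j ≤ n' j := by
      intro j hj
      by_cases hji : j = i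
      · subst hji
        rw [hn'i]
        omega
      · rw [hn'j j hji]
        exact h2 j hj
    have a3 : ∑ j ∈ T, (n' j - p j) = d := by
      have h7 : ∑ j ∈ T, (n j - p j) = ∑ j ∈ T, (n' j - p j) + 1 := by
        rw [← Finset.add_sum_erase T _ hi, ← Finset.add_sum_erase T (fun j => n' j - p j) hi, hn'i]
        have h8 : ∑ x ∈ T.erase i, (n x - p x) = ∑ x ∈ T.erase i, (n' x - p x) := by
          refine Finset.sum_congr rfl fun x hx => ?_
          rw [hn'j x (Finset.ne_of_mem_erase hx)]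
        rw [h8]
        omega
      omega
    rw [hn]
    exact hs n' a1 a2 (ih n' a1 a2 a3) i hi

/-- the stabilisation principle: a property which holds in the corner of every slice holds beyond a box -/
theorem box_lemma (J : Finset ι) (R : (ι → ℕ) → ι → Prop) (n0 : ι → ℕ)
    (h : ∀ K ⊆ J, ∀ n1, Agr J n1 n0 → ∃ p : ℕ, ∀ n, Agr K n n1 → (∀ j ∈ K, p ≤ n j) →
      ∀ i ∈ K, R n i) :
    ∃ m : ℕ, ∀ n, Agr J n n0 → ∀ i ∈ J, m ≤ n i → R n i := by
  suffices H : ∀ K ⊆ J, ∀ n1, Agr J n1 n0 → ∃ m : ℕ, ∀ n, Agr K n n1 → ∀ i ∈ K, m ≤ n i → R n i from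
    H J (Finset.Subset.refl J) n0 (Agr.refl J n0)
  intro K
  induction K using Finset.strongInduction with
  | H K ih =>
    intro hK n1 hn1
    obtain ⟨p, hp⟩ := h K hK n1 hn1
    have h1 : ∀ j : ι, ∀ a : ℕ, ∃ m : ℕ, j ∈ K → ∀ n, Agr (K.erase j) n (Function.update n1 j a) →
        ∀ i ∈ K.erase j, m ≤ n i → R n i := by
      intro j a
      by_cases hj : j ∈ K
      · obtain ⟨m, hm⟩ := ih (K.erase j) (Finset.erase_ssubset hj)
          ((Finset.erase_subset j K).trans hK) (Function.update n1 j a) (by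
            intro i hi
            rw [Function.update_of_ne (fun h' : i = j => hi (h' ▸ hK hj))]
            exact hn1 i hi)
        exact ⟨m, fun _ => hm⟩
      · exact ⟨0, fun h' => absurd h' hj⟩
    choose mm hmm using h1
    refine ⟨p + ∑ j ∈ K, ∑ a ∈ Finset.range p, mm j a, fun n hn i hi hni => ?_⟩
    by_cases hall : ∀ j ∈ K, p ≤ n j
    · exact hp n hn hall i hi
    · push Not at hall
      obtain ⟨j, hj, hjp⟩ := hall
      have hij : i ≠ j := by
        rintro rfl
        omega
      refine hmm j (n j) hj n ?_ i (Finset.mem_erase.2 ⟨hij, hi⟩) ?_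
      · intro x hx
        by_cases hxj : x = j
        · subst hxj
          simp
        · rw [Function.update_of_ne hxj]
          exact hn x fun hxK => hx (Finset.mem_erase.2 ⟨hxj, hxK⟩)
      · have h2 : mm j (n j) ≤ ∑ a ∈ Finset.range p, mm j a :=
          Finset.single_le_sum (f := fun a => mm j a) (fun _ _ => Nat.zero_le _) (Finset.mem_range.2 hjp)
        have h3 : ∑ a ∈ Finset.range p, mm j a ≤ ∑ j ∈ K, ∑ a ∈ Finset.range p, mm j a :=
          Finset.single_le_sum (f := fun j => ∑ a ∈ Finset.range p, mm j a)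
            (fun _ _ => Nat.zero_le _) hj
        omega

/-- a nonnegative function which is nonincreasing beyond a box is stable beyond a box -/
theorem mono_region (J : Finset ι) (z : (ι → ℕ) → ℤ) (n0 : ι → ℕ) (m0 : ℕ)
    (h0 : ∀ n, Agr J n n0 → 0 ≤ z n)
    (hd : ∀ n, Agr J n n0 → ∀ i ∈ J, m0 ≤ n i → z (n + e i) ≤ z n) :
    ∃ m : ℕ, m0 ≤ m ∧ ∀ n, Agr J n n0 → ∀ i ∈ J, m ≤ n i → z (n + e i) = z n := by
  have H : ∃ m : ℕ, ∀ n, Agr J n n0 → ∀ i ∈ J, m ≤ n i → z (n + e i) = z n := by
    refine box_lemma J (fun n i => z (n + e i) = z n) n0 fun K hK n1 hn1 => ?_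
    let S : Set ℕ := {t | ∃ n, Agr K n n1 ∧ (∀ j ∈ K, m0 ≤ n j) ∧ (z n).toNat = t}
    have hS : S.Nonempty := by
      refine ⟨_, fun j => if j ∈ K then m0 else n1 j, ?_, ?_, rfl⟩
      · intro j hj
        simp [hj]
      · intro j hj
        simp [hj]
    obtain ⟨ns, hs1, hs2, hs3⟩ := Nat.sInf_mem hS
    have hmin : ∀ n, Agr K n n1 → (∀ j ∈ K, m0 ≤ n j) → z ns ≤ z n := by
      intro n hn1' hn2
      have h1 : sInf S ≤ (z n).toNat := Nat.sInf_le ⟨n, hn1', hn2, rfl⟩
      have h2 := h0 n ((hn1'.mono hK).trans hn1)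
      have h3 := h0 ns ((hs1.mono hK).trans hn1)
      omega
    have hle : ∀ n, Agr K n ns → (∀ j ∈ K, ns j ≤ n j) → z n ≤ z ns := by
      refine up_induct K ns le_rfl fun n a1 a2 a3 i hi => ?_
      refine (hd n (((a1.trans hs1).mono hK).trans hn1) i (hK hi) ?_).trans a3
      exact (hs2 i hi).trans (a2 i hi)
    refine ⟨m0 + ∑ j ∈ K, ns j, fun n hn hp i hi => ?_⟩
    have hns : ∀ j ∈ K, ns j ≤ n j := by
      intro j hj
      have h1 : ns j ≤ ∑ j ∈ K, ns j := Finset.single_le_sum (f := ns) (fun _ _ => Nat.zero_le _) hj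
      have h2 := hp j hj
      omega
    have hm : ∀ j ∈ K, m0 ≤ n j := fun j hj => by
      have h2 := hp j hj
      omega
    have b1 := hle n (hn.trans hs1.symm) hns
    have b2 := hmin n hn hm
    have b3 := hle (n + e i) ((hn.trans hs1.symm).add_e hi) fun j hj => (hns j hj).trans (le_add_e n i j)
    have b4 := hmin (n + e i) (hn.add_e hi) fun j hj => (hm j hj).trans (le_add_e n i j)
    change z (n + e i) = z n
    omega
  obtain ⟨m, hm⟩ := H
  exact ⟨max m0 m, le_max_left _ _, fun n hn i hi hni => hm n hn i hi ((le_max_right _ _).trans hni)⟩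

/-- a nonnegative integer sequence with nonpositive second differences is affine in the end -/
theorem seq_stab (q : ℕ → ℤ) (h0 : ∀ t, 0 ≤ q t) (h2 : ∀ t, q (t + 2) - 2 * q (t + 1) + q t ≤ 0) :
    ∃ m : ℕ, ∀ t, m ≤ t → q (t + 2) - 2 * q (t + 1) + q t = 0 := by
  have hanti : ∀ t s : ℕ, q (t + s + 1) - q (t + s) ≤ q (t + 1) - q t := by
    intro t s
    induction s with
    | zero => simp
    | succ s ih =>
      have h3 := h2 (t + s)
      have e1 : t + (s + 1) + 1 = t + s + 2 := by ring
      have e2 : t + (s + 1) = t + s + 1 := by ring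
      rw [e1, e2]
      linarith
  have hpos : ∀ t, 0 ≤ q (t + 1) - q t := by
    intro t
    by_contra hneg
    push Not at hneg
    have h3 : ∀ s : ℕ, q (t + s) ≤ q t - s := by
      intro s
      induction s with
      | zero => simp
      | succ s ih =>
        have h4 := hanti t s
        push_cast
        have e2 : t + (s + 1) = t + s + 1 := by ring
        rw [e2]
        linarith
    have h4 := h3 (q t).toNat.succ
    have h5 := h0 (t + (q t).toNat.succ)
    have h6 := h0 t
    push_cast at h4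
    omega
  let S : Set ℕ := {x | ∃ t, (q (t + 1) - q t).toNat = x}
  have hS : S.Nonempty := ⟨_, 0, rfl⟩
  obtain ⟨t0, ht0⟩ := Nat.sInf_mem hS
  have hconst : ∀ t, t0 ≤ t → q (t + 1) - q t = q (t0 + 1) - q t0 := by
    intro t ht
    have h3 : sInf S ≤ (q (t + 1) - q t).toNat := Nat.sInf_le ⟨t, rfl⟩
    have h4 := hanti t0 (t - t0)
    have e1 : t0 + (t - t0) = t := by omega
    rw [e1] at h4
    have h5 := hpos t
    have h6 := hpos t0
    omega
  refine ⟨t0, fun t ht => ?_⟩
  have h3 := hconst t ht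
  have h4 := hconst (t + 1) (by omega)
  have e1 : t + 1 + 1 = t + 2 := by ring
  rw [e1] at h4
  linarith

/-! ### mixed differences -/

/-- indicator -/
def ind (A : Finset ι) : ι → ℕ := fun j => if j ∈ A then 1 else 0

/-- the mixed difference in the directions of `T` -/
def DT (T : Finset ι) (f : (ι → ℕ) → ℤ) (n : ι → ℕ) : ℤ :=
  ∑ A ∈ T.powerset, (-1 : ℤ) ^ (T.card + A.card) * f (n + ind A)

theorem DT_empty (f : (ι → ℕ) → ℤ) (n : ι → ℕ) : DT ∅ f n = f n := by
  have h : ind (∅ : Finset ι) = 0 := by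
    funext j
    simp [ind]
  simp [DT, h]

theorem DT_insert {T : Finset ι} {i : ι} (hi : i ∉ T) (f : (ι → ℕ) → ℤ) (n : ι → ℕ) :
    DT (insert i T) f n = DT T f (n + e i) - DT T f n := by
  unfold DT
  rw [Finset.sum_powerset_insert hi, add_comm, sub_eq_add_neg, ← Finset.sum_neg_distrib]
  congr 1
  · refine Finset.sum_congr rfl fun A hA => ?_
    have hiA : i ∉ A := fun h => hi (Finset.mem_powerset.1 hA h)
    rw [Finset.card_insert_of_notMem hi, Finset.card_insert_of_notMem hiA]
    have h1 : n + ind (insert i A) = n + e i + ind A := by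
      funext j
      by_cases hj : j = i
      · subst hj
        simp [ind, hiA, e_same]
      · simp [ind, hj, e_ne hj]
    rw [h1]
    have h2 : (-1 : ℤ) ^ (T.card + 1 + (A.card + 1)) = (-1) ^ (T.card + A.card) := by
      have e1 : T.card + 1 + (A.card + 1) = T.card + A.card + 2 := by ring
      rw [e1, pow_add]
      norm_num
    rw [h2]
  · refine Finset.sum_congr rfl fun A hA => ?_
    rw [Finset.card_insert_of_notMem hi]
    have e1 : T.card + 1 + A.card = T.card + A.card + 1 := by ring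
    rw [e1, pow_succ]
    ring

theorem DT_comb (T : Finset ι) (f g : (ι → ℕ) → ℤ) (a b : ℤ) (n : ι → ℕ) :
    DT T (fun n => a * f n + b * g n) n = a * DT T f n + b * DT T g n := by
  unfold DT
  rw [Finset.mul_sum, Finset.mul_sum, ← Finset.sum_add_distrib]
  refine Finset.sum_congr rfl fun A _ => ?_
  ring

theorem DT_shift (T : Finset ι) (f : (ι → ℕ) → ℤ) (a n : ι → ℕ) :
    DT T (fun n => f (n + a)) n = DT T f (n + a) := by
  unfold DT
  refine Finset.sum_congr rfl fun A _ => ?_
  have h1 : n + ind A + a = n + a + ind A := by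
    rw [add_assoc, add_comm (ind A) a, ← add_assoc]
  simp only [h1]

theorem DT_congr {T : Finset ι} {f g : (ι → ℕ) → ℤ} {n : ι → ℕ}
    (h : ∀ A ⊆ T, f (n + ind A) = g (n + ind A)) : DT T f n = DT T g n := by
  unfold DT
  refine Finset.sum_congr rfl fun A hA => ?_
  rw [h A (Finset.mem_powerset.1 hA)]

theorem agr_add_ind {T A : Finset ι} (hA : A ⊆ T) {n n0 : ι → ℕ} (h : Agr T n n0) :
    Agr T (n + ind A) n0 := by
  intro j hj
  have h1 : ind A j = 0 := by
    unfold ind
    rw [if_neg fun h' => hj (hA h')]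
  rw [Pi.add_apply, h1, add_zero]
  exact h j hj

/-- the second differences in the directions of `T` vanish for large arguments -/
def Aff (T : Finset ι) (f : (ι → ℕ) → ℤ) (n0 : ι → ℕ) (m : ℕ) : Prop :=
  ∀ n, Agr T n n0 → (∀ j ∈ T, m ≤ n j) → ∀ i ∈ T, f (n + e i + e i) - 2 * f (n + e i) + f n = 0

theorem Aff.mono {T : Finset ι} {f : (ι → ℕ) → ℤ} {n0 : ι → ℕ} {m m' : ℕ} (hm : m ≤ m')
    (h : Aff T f n0 m) : Aff T f n0 m' :=
  fun n a1 a2 => h n a1 fun j hj => hm.trans (a2 j hj)

theorem DT_step {T : Finset ι} {f : (ι → ℕ) → ℤ} {n0 : ι → ℕ} {m : ℕ} (h : Aff T f n0 m)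
    {n : ι → ℕ} (h1 : Agr T n n0) (h2 : ∀ j ∈ T, m ≤ n j) {i : ι} (hi : i ∈ T) :
    DT T f (n + e i) = DT T f n := by
  have hT : insert i (T.erase i) = T := Finset.insert_erase hi
  have hi' : i ∉ T.erase i := Finset.notMem_erase i T
  rw [← hT, DT_insert hi', DT_insert hi']
  have h3 : DT (T.erase i) f (n + e i + e i) - 2 * DT (T.erase i) f (n + e i) + DT (T.erase i) f n = 0 := by
    have h4 : DT (T.erase i) (fun n => 1 * (fun n => 1 * (fun n => f (n + (e i + e i))) n +
        (-2) * (fun n => f (n + e i)) n) n + 1 * f n) n = 0 := by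
      unfold DT
      refine Finset.sum_eq_zero fun A hA => ?_
      have hAT : A ⊆ T := (Finset.mem_powerset.1 hA).trans (Finset.erase_subset i T)
      have h5 := h (n + ind A) (agr_add_ind hAT h1) (fun j hj => (h2 j hj).trans (by simp)) i hi
      rw [add_assoc] at h5
      have h6 : (1 : ℤ) * (1 * f (n + ind A + (e i + e i)) + (-2) * f (n + ind A + e i)) +
        1 * f (n + ind A) = 0 := by linarith
      simp only [h6, mul_zero]
    rw [DT_comb, DT_comb, DT_shift, DT_shift, ← add_assoc] at h4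
    linarith
  linarith

/-- the point with the coordinates `m` in `T` -/
def pt (T : Finset ι) (n0 : ι → ℕ) (m : ℕ) : ι → ℕ := fun j => if j ∈ T then m else n0 j

theorem pt_agr (T : Finset ι) (n0 : ι → ℕ) (m : ℕ) : Agr T (pt T n0 m) n0 := fun j hj => by
  simp [pt, hj]

theorem pt_mem {T : Finset ι} (n0 : ι → ℕ) (m : ℕ) {j : ι} (hj : j ∈ T) : pt T n0 m j = m := by
  simp [pt, hj]

theorem DT_const {T : Finset ι} {f : (ι → ℕ) → ℤ} {n0 : ι → ℕ} {m : ℕ} (h : Aff T f n0 m)
    {n : ι → ℕ} (h1 : Agr T n n0) (h2 : ∀ j ∈ T, m ≤ n j) : DT T f n = DT T f (pt T n0 m) := by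
  refine up_induct (P := fun n => DT T f n = DT T f (pt T n0 m)) T (pt T n0 m) rfl ?_ n
    (h1.trans (pt_agr T n0 m).symm) (fun j hj => by
      rw [pt_mem n0 m hj]
      exact h2 j hj)
  intro n a1 a2 a3 i hi
  rw [DT_step h (a1.trans (pt_agr T n0 m)) (fun j hj => ?_) hi]
  · exact a3
  · have h3 := a2 j hj
    rwa [pt_mem n0 m hj] at h3

open Classical in
/-- the leading coefficient in the directions of `T` -/
noncomputable def rho (T : Finset ι) (f : (ι → ℕ) → ℤ) (n0 : ι → ℕ) : ℤ :=
  if h : ∃ m, Aff T f n0 m then DT T f (pt T n0 (Classical.choose h)) else 0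

theorem rho_eq {T : Finset ι} {f : (ι → ℕ) → ℤ} {n0 : ι → ℕ} {m : ℕ} (h : Aff T f n0 m)
    {n : ι → ℕ} (h1 : Agr T n n0) (h2 : ∀ j ∈ T, m ≤ n j) : rho T f n0 = DT T f n := by
  have hex : ∃ m, Aff T f n0 m := ⟨m, h⟩
  unfold rho
  rw [dif_pos hex]
  have hc := Classical.choose_spec hex
  have q1 : DT T f (pt T n0 (max m (Classical.choose hex))) = DT T f (pt T n0 (Classical.choose hex)) :=
    DT_const hc (pt_agr _ _ _) fun j hj => by
      rw [pt_mem _ _ hj]
      exact le_max_right _ _
  have q2 : DT T f (pt T n0 (max m (Classical.choose hex))) = DT T f (pt T n0 m) :=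
    DT_const h (pt_agr _ _ _) fun j hj => by
      rw [pt_mem _ _ hj]
      exact le_max_left _ _
  rw [← q1, q2, DT_const h h1 h2]

theorem rho_empty (f : (ι → ℕ) → ℤ) (n0 : ι → ℕ) : rho ∅ f n0 = f n0 := by
  have h : Aff ∅ f n0 0 := fun _ _ _ i hi => absurd hi (Finset.notMem_empty i)
  rw [rho_eq h (Agr.refl _ _) (fun j hj => absurd hj (Finset.notMem_empty j)), DT_empty]

theorem rho_comb {T : Finset ι} {f g h : (ι → ℕ) → ℤ} {n0 : ι → ℕ} {a b : ℤ}
    (hf : ∃ m, Aff T f n0 m) (hg : ∃ m, Aff T g n0 m)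
    (hh : ∀ n, Agr T n n0 → h n = a * f n + b * g n) :
    (∃ m, Aff T h n0 m) ∧ rho T h n0 = a * rho T f n0 + b * rho T g n0 := by
  obtain ⟨m1, h1⟩ := hf
  obtain ⟨m2, h2⟩ := hg
  have h1' := h1.mono (le_max_left m1 m2)
  have h2' := h2.mono (le_max_right m1 m2)
  have h3 : Aff T h n0 (max m1 m2) := by
    intro n a1 a2 i hi
    rw [hh n a1, hh _ (a1.add_e hi), hh _ ((a1.add_e hi).add_e hi)]
    have h4 := h1' n a1 a2 i hi
    have h5 := h2' n a1 a2 i hi
    linear_combination a * h4 + b * h5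
  refine ⟨⟨_, h3⟩, ?_⟩
  have p1 := pt_agr T n0 (max m1 m2)
  have p2 : ∀ j ∈ T, max m1 m2 ≤ pt T n0 (max m1 m2) j := fun j hj => by rw [pt_mem _ _ hj]
  rw [rho_eq h3 p1 p2, rho_eq h1' p1 p2, rho_eq h2' p1 p2, ← DT_comb]
  exact DT_congr fun A hA => hh _ (agr_add_ind hA p1)

theorem aff_shift {T : Finset ι} {f : (ι → ℕ) → ℤ} {n0 a : ι → ℕ} {m : ℕ}
    (h : Aff T f (n0 + a) m) : Aff T (fun n => f (n + a)) n0 m := by
  intro n a1 a2 i hi
  have h1 := h (n + a) (a1.add a) (fun j hj => (a2 j hj).trans (by simp)) i hi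
  have e1 : n + e i + e i + a = n + a + e i + e i := by
    funext j
    simp only [Pi.add_apply]
    ring
  have e2 : n + e i + a = n + a + e i := by
    funext j
    simp only [Pi.add_apply]
    ring
  change f (n + e i + e i + a) - 2 * f (n + e i + a) + f (n + a) = 0
  rw [e1, e2]
  exact h1

theorem rho_shift {T : Finset ι} {f : (ι → ℕ) → ℤ} {n0 a : ι → ℕ}
    (h : ∃ m, Aff T f (n0 + a) m) : rho T (fun n => f (n + a)) n0 = rho T f (n0 + a) := by
  obtain ⟨m, hm⟩ := h
  have p1 := pt_agr T n0 m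
  have p2 : ∀ j ∈ T, m ≤ pt T n0 m j := fun j hj => by rw [pt_mem _ _ hj]
  rw [rho_eq (aff_shift hm) p1 p2, DT_shift, rho_eq hm (p1.add a) fun j hj => (p2 j hj).trans (by simp)]

theorem rho_indep {T : Finset ι} {f : (ι → ℕ) → ℤ} {n0 n1 : ι → ℕ} (h : ∃ m, Aff T f n0 m)
    (h1 : Agr T n1 n0) : rho T f n1 = rho T f n0 := by
  obtain ⟨m, hm⟩ := h
  have hm' : Aff T f n1 m := fun n a1 a2 => hm n (a1.trans h1) a2
  have p1 := pt_agr T n0 m
  have p2 : ∀ j ∈ T, m ≤ pt T n0 m j := fun j hj => by rw [pt_mem _ _ hj]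
  rw [rho_eq hm p1 p2, rho_eq hm' (p1.trans h1.symm) p2]

theorem DT_nonneg (T : Finset ι) : ∀ (f : (ι → ℕ) → ℤ) (n0 : ι → ℕ) (m : ℕ), Aff T f n0 m →
    (∀ n, Agr T n n0 → (∀ j ∈ T, m ≤ n j) → 0 ≤ f n) →
    ∀ n, Agr T n n0 → (∀ j ∈ T, m ≤ n j) → 0 ≤ DT T f n := by
  induction T using Finset.induction_on with
  | empty =>
    intro f n0 m _ h2 n a1 a2
    rw [DT_empty]
    exact h2 n a1 a2
  | insert i T hi ih =>
    intro f n0 m h1 h2 n a1 a2
    have hg : ∀ n, Agr (insert i T) n n0 → (∀ j ∈ insert i T, m ≤ n j) → 0 ≤ f (n + e i) - f n := by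
      intro n b1 b2
      have haff : ∀ t : ℕ, ∀ s : ι → ℕ, s = n + t • e i → f s = f n + t * (f (n + e i) - f n) ∧
          f (s + e i) = f n + (t + 1) * (f (n + e i) - f n) := by
        intro t
        induction t with
        | zero =>
          intro s hs
          have e0 : s = n := by
            rw [hs]
            simp
          subst e0
          constructor
          · push_cast
            ring
          · push_cast
            ring
        | succ t iht =>
          intro s hs
          have hs' : s = n + t • e i + e i := by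
            rw [hs, succ_nsmul, add_assoc]
          obtain ⟨c1, c2⟩ := iht (n + t • e i) rfl
          have c3 : Agr (insert i T) (n + t • e i) n0 := by
            intro j hj
            have hji : j ≠ i := fun h' => hj (h' ▸ Finset.mem_insert_self i T)
            simp only [Pi.add_apply, Pi.smul_apply, e_ne hji, smul_zero, add_zero]
            exact b1 j hj
          have c4 := h1 (n + t • e i) c3 (fun j hj => (b2 j hj).trans (by simp)) i
            (Finset.mem_insert_self i T)
          subst hs'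
          constructor
          · rw [c2]
            push_cast
            ring
          · push_cast
            rw [c1, c2] at c4
            linarith
      by_contra hneg
      push Not at hneg
      have h3 := (haff (f n).toNat.succ _ rfl).1
      have h4 : Agr (insert i T) (n + (f n).toNat.succ • e i) n0 := by
        intro j hj
        have hji : j ≠ i := fun h' => hj (h' ▸ Finset.mem_insert_self i T)
        simp only [Pi.add_apply, Pi.smul_apply, e_ne hji, smul_zero, add_zero]
        exact b1 j hj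
      have h5 := h2 _ h4 (fun j hj => (b2 j hj).trans (by simp))
      have h6 := h2 n b1 b2
      rw [h3] at h5
      push_cast at h5
      have h7 : ((f n).toNat : ℤ) = f n := Int.toNat_of_nonneg h6
      rw [h7] at h5
      nlinarith
    rw [DT_insert hi]
    have hmem : ∀ n', Agr T n' n → (∀ j ∈ T, m ≤ n' j) →
        Agr (insert i T) n' n0 ∧ ∀ j ∈ insert i T, m ≤ n' j := by
      intro n' b1 b2
      refine ⟨(b1.mono (Finset.subset_insert i T)).trans a1, fun j hj => ?_⟩
      rcases Finset.mem_insert.1 hj with h' | h'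
      · rw [b1 j (h' ▸ hi)]
        exact a2 j hj
      · exact b2 j h'
    have h3 : Aff T (fun n => 1 * (fun n => f (n + e i)) n + (-1) * f n) n m := by
      intro n' b1 b2 j hj
      obtain ⟨c1, c2⟩ := hmem n' b1 b2
      have hj' : j ∈ insert i T := Finset.mem_insert_of_mem hj
      have d1 := h1 n' c1 c2 j hj'
      have d2 := h1 (n' + e i) (c1.add_e (Finset.mem_insert_self i T))
        (fun j hj => (c2 j hj).trans (le_add_e _ _ _)) j hj'
      have e1 : n' + e j + e j + e i = n' + e i + e j + e j := by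
        funext x
        simp only [Pi.add_apply]
        ring
      have e2 : n' + e j + e i = n' + e i + e j := by
        funext x
        simp only [Pi.add_apply]
        ring
      simp only [e1, e2]
      linarith
    have h4 := ih _ n m h3 (fun n' b1 b2 => by
      obtain ⟨c1, c2⟩ := hmem n' b1 b2
      have h5 := hg n' c1 c2
      change 0 ≤ 1 * f (n' + e i) + (-1) * f n'
      linarith) n (Agr.refl T n) (fun j hj => a2 j (Finset.mem_insert_of_mem hj))
    rw [DT_comb, DT_shift] at h4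
    linarith

theorem rho_nonneg {T : Finset ι} {f : (ι → ℕ) → ℤ} {n0 : ι → ℕ} (h : ∃ m, Aff T f n0 m)
    (h0 : ∀ n, Agr T n n0 → 0 ≤ f n) : 0 ≤ rho T f n0 := by
  obtain ⟨m, hm⟩ := h
  have p1 := pt_agr T n0 m
  have p2 : ∀ j ∈ T, m ≤ pt T n0 m j := fun j hj => by rw [pt_mem _ _ hj]
  rw [rho_eq hm p1 p2]
  exact DT_nonneg T f n0 m hm (fun n a1 _ => h0 n a1) _ p1 p2

theorem rho_insert {T : Finset ι} {f : (ι → ℕ) → ℤ} {n0 : ι → ℕ} {i : ι} (hi : i ∉ T) {m : ℕ}
    (h : Aff (insert i T) f n0 m) {n1 : ι → ℕ} (h1 : Agr (insert i T) n1 n0) (h2 : m ≤ n1 i)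
    (hT : ∃ m, Aff T f n1 m) (hT' : ∃ m, Aff T f (n1 + e i) m) :
    rho T f (n1 + e i) - rho T f n1 = rho (insert i T) f n0 := by
  obtain ⟨m1, hm1⟩ := hT
  obtain ⟨m2, hm2⟩ := hT'
  have hq := pt_agr T n1 (m + m1 + m2)
  have hq' : ∀ j ∈ T, m + m1 + m2 = pt T n1 (m + m1 + m2) j := fun j hj => by rw [pt_mem _ _ hj]
  have hqi : pt T n1 (m + m1 + m2) i = n1 i := hq i hi
  rw [rho_eq hm1 hq fun j hj => by rw [← hq' j hj]; omega,
    rho_eq hm2 (hq.add (e i)) fun j hj => by
      refine le_trans ?_ (le_add_e _ i j)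
      rw [← hq' j hj]
      omega,
    rho_eq h (n := pt T n1 (m + m1 + m2)) ((hq.mono (Finset.subset_insert i T)).trans h1) fun j hj => ?_,
    DT_insert hi]
  rcases Finset.mem_insert.1 hj with h' | h'
  · subst h'
    rw [hqi]
    exact h2
  · rw [← hq' j h']
    omega

end Pool.Agent.Lib.NOreX
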