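import Pool.Agent.Lib.NOreX.Mk

/-!
# NOreX/Op: the opposite algebra
-/

set_option autoImplicit false

namespace Pool.Agent.Lib.NOreX

open MulOpposite

variable {ι : Type} [DecidableEq ι] {k R : Type*} [Field k] [Ring R] [Algebra k R]
  {I : Finset ι} {lt : (ι → ℕ) → (ι → ℕ) → Prop} {F : (ι → ℕ) → Submodule k R}

/-- the opposite filtration -/
def opF (F : (ι → ℕ) → Submodule k R) (n : ι → ℕ) : Submodule k Rᵐᵒᵖ :=
  (F n).map (↑(opLinearEquiv k : R ≃ₗ[k] Rᵐᵒᵖ) : R →ₗ[k] Rᵐᵒᵖ)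

theorem mem_opF {n : ι → ℕ} {x : Rᵐᵒᵖ} : x ∈ opF F n ↔ unop x ∈ F n := by
  constructor
  · rintro ⟨y, hy, rfl⟩
    exact hy
  · intro hx
    exact ⟨unop x, hx, rfl⟩

theorem low_opF (n : ι → ℕ) : low lt (opF F) n =
    (low lt F n).map (↑(opLinearEquiv k : R ≃ₗ[k] Rᵐᵒᵖ) : R →ₗ[k] Rᵐᵒᵖ) := by
  unfold low opF
  simp only [Submodule.map_iSup]

theorem mem_low_opF {n : ι → ℕ} {x : Rᵐᵒᵖ} : x ∈ low lt (opF F) n ↔ unop x ∈ low lt F n := by
  rw [low_opF]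
  constructor
  · rintro ⟨y, hy, rfl⟩
    exact hy
  · intro hx
    exact ⟨unop x, hx, rfl⟩

theorem IsDoubleOre.op (h : IsDoubleOre I lt F) : IsDoubleOre I lt (opF F) where
  mono m n hmn := Submodule.map_mono (h.mono m n hmn)
  exh x := by
    obtain ⟨n, hn⟩ := h.exh (unop x)
    exact ⟨n, mem_opF.2 hn⟩
  one := mem_opF.2 h.one
  mul m n := by
    rw [Submodule.mul_le]
    intro x hx y hy
    rw [mem_opF] at hx hy ⊢
    rw [unop_mul, add_comm m n]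
    exact h.mul n m (Submodule.mul_mem_mul hy hx)
  gen m n := by
    have h1 := h.gen n m
    rw [add_comm n m] at h1
    have h2 := Submodule.map_mono (f := (↑(opLinearEquiv k : R ≃ₗ[k] Rᵐᵒᵖ) : R →ₗ[k] Rᵐᵒᵖ)) h1
    rw [Submodule.map_sup, Submodule.map_op_mul, ← low_opF] at h2
    exact h2
  dim n := by
    rw [← h.dim n]
    have h1 : (low lt F n).map (↑(opLinearEquiv k : R ≃ₗ[k] Rᵐᵒᵖ) : R →ₗ[k] Rᵐᵒᵖ) =
      low lt (opF F) n := (low_opF n).symm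
    let E : (R ⧸ low lt F n) ≃ₗ[k] (Rᵐᵒᵖ ⧸ low lt (opF F) n) :=
      Submodule.Quotient.equiv _ _ (opLinearEquiv k : R ≃ₗ[k] Rᵐᵒᵖ) h1
    have h2 : (opF F n).map (low lt (opF F) n).mkQ =
        ((F n).map (low lt F n).mkQ).map (E : (R ⧸ low lt F n) →ₗ[k] (Rᵐᵒᵖ ⧸ low lt (opF F) n)) := by
      unfold opF
      rw [← Submodule.map_comp, ← Submodule.map_comp]
      rfl
    rw [h2]
    exact LinearEquiv.finrank_map_eq E _
  reg i hi u hu w hw huw := by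
    rw [mem_opF] at hu hw
    rw [mem_low_opF] at huw ⊢
    rw [mem_low_opF]
    rw [unop_mul] at huw
    exact (h.reg i hi (unop w) hw (unop u) hu huw).symm

end Pool.Agent.Lib.NOreX
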