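import Pool.Agent.Lib.NOreX.Num

/-!
# NOreX/Sys: multi-filtered algebras with the rank two condition, stable families
-/

set_option autoImplicit false

namespace Pool.Agent.Lib.NOreX

variable {ι : Type} {k R : Type*} [DecidableEq ι] [Field k] [Ring R] [Algebra k R]

/-- dimension of `W` modulo `M` -/
noncomputable def rk (M W : Submodule k R) : ℤ := (Module.finrank k (W.map M.mkQ) : ℤ)

theorem rk_nonneg (M W : Submodule k R) : 0 ≤ rk M W := Int.natCast_nonneg _

theorem fin_of_le {M W W' : Submodule k R} (h : W ≤ W') (hf : Module.Finite k (W'.map M.mkQ)) :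
    Module.Finite k (W.map M.mkQ) :=
  Submodule.finiteDimensional_of_le (Submodule.map_mono h)

theorem rk_mono {M W W' : Submodule k R} (h : W ≤ W') (hf : Module.Finite k (W'.map M.mkQ)) :
    rk M W ≤ rk M W' := by
  unfold rk
  exact_mod_cast Submodule.finrank_mono (Submodule.map_mono h)

theorem eq_of_rk {M W W' : Submodule k R} (hM : M ≤ W) (h : W ≤ W')
    (hf : Module.Finite k (W'.map M.mkQ)) (he : rk M W' ≤ rk M W) : W = W' := by
  have h1 : W.map M.mkQ = W'.map M.mkQ := by
    refine Submodule.eq_of_le_of_finrank_le (Submodule.map_mono h) ?_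
    unfold rk at he
    exact_mod_cast he
  have h2 := congrArg (Submodule.comap M.mkQ) h1
  rw [Submodule.comap_map_mkQ, Submodule.comap_map_mkQ, sup_eq_right.2 hM,
    sup_eq_right.2 (hM.trans h)] at h2
  exact h2

theorem mul_mr {A B C : Submodule k R} (h : B ≤ C) : A * B ≤ A * C := mul_le_mul' le_rfl h

theorem mul_ml {A B C : Submodule k R} (h : A ≤ B) : A * C ≤ B * C := mul_le_mul' h le_rfl

/-- `{b | A b ⊆ W}` -/
def colon (A W : Submodule k R) : Submodule k R where
  carrier := {b | ∀ a ∈ A, a * b ∈ W}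
  add_mem' := fun {x y} hx hy a ha => by
    rw [mul_add]
    exact W.add_mem (hx a ha) (hy a ha)
  zero_mem' := fun a _ => by
    rw [mul_zero]
    exact W.zero_mem
  smul_mem' := fun c x hx a ha => by
    rw [mul_smul_comm]
    exact W.smul_mem c (hx a ha)

theorem mem_colon {A W : Submodule k R} {b : R} : b ∈ colon A W ↔ ∀ a ∈ A, a * b ∈ W := Iff.rfl

theorem le_colon {A B W : Submodule k R} : B ≤ colon A W ↔ A * B ≤ W := by
  rw [Submodule.mul_le]
  exact ⟨fun h a ha b hb => h hb a ha, fun h b hb a ha => h a ha b hb⟩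

theorem mul_colon_le (A W : Submodule k R) : A * colon A W ≤ W := le_colon.1 le_rfl

theorem colon_mono {A W W' : Submodule k R} (h : W ≤ W') : colon A W ≤ colon A W' :=
  fun _ hb a ha => h (hb a ha)

variable (ι k R) in
/-- multi-filtered algebras with the rank two condition -/
structure Sys where
  U : (ι → ℕ) → Submodule k R
  L : (ι → ℕ) → Submodule k R
  hLU : ∀ n, L n ≤ U n
  fin : ∀ n, Module.Finite k ((U n).map (L n).mkQ)
  one_mem : (1 : R) ∈ U 0
  uzero : U 0 ≤ 1 ⊔ L 0
  UU : ∀ m n, U m * U n ≤ U (m + n)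
  UL : ∀ m n, U m * L n ≤ L (m + n)
  LU : ∀ m n, L m * U n ≤ L (m + n)
  gen : ∀ m n, U (m + n) ≤ U m * U n ⊔ L (m + n)
  E1 : ∀ (i : ι) (n : ι → ℕ) (W : Submodule k R), L (n + e i) ≤ W → W ≤ U (n + e i) →
    rk (L (n + e i + e i)) (U (e i) * W ⊔ L (n + e i + e i)) + rk (L n) (U n ⊓ colon (U (e i)) W) =
      2 * rk (L (n + e i)) W

namespace Sys

variable (Y : Sys ι k R)

/-- stable families -/
structure Stab (S : Finset ι) (N : (ι → ℕ) → Submodule k R) : Prop where
  lo : ∀ n, Y.L n ≤ N n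
  hi : ∀ n, N n ≤ Y.U n
  mul : ∀ i ∈ S, ∀ n, Y.U (e i) * N n ≤ N (n + e i)

/-- the Hilbert function -/
noncomputable def H (N : (ι → ℕ) → Submodule k R) (n : ι → ℕ) : ℤ := rk (Y.L n) (N n)

variable {Y}

theorem Stab.mono {S T : Finset ι} {N : (ι → ℕ) → Submodule k R} (hT : T ⊆ S) (h : Y.Stab S N) :
    Y.Stab T N := ⟨h.lo, h.hi, fun i hi n => h.mul i (hT hi) n⟩

theorem Stab.fin {S : Finset ι} {N : (ι → ℕ) → Submodule k R} (h : Y.Stab S N) (n : ι → ℕ) :
    Module.Finite k ((N n).map (Y.L n).mkQ) := fin_of_le (h.hi n) (Y.fin n)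

/-- two factors may be exchanged modulo the lower terms -/
theorem swap (a b n : ι → ℕ) {W X : Submodule k R} (hW : W ≤ Y.U n)
    (h : Y.U b * (Y.U a * W) ≤ X) (hX : Y.L (a + b + n) ≤ X) : Y.U a * (Y.U b * W) ≤ X := by
  have h1 : Y.U a * Y.U b ≤ Y.U b * Y.U a ⊔ Y.L (a + b) := by
    refine (Y.UU a b).trans ?_
    rw [add_comm a b]
    exact Y.gen b a
  rw [← mul_assoc]
  refine (mul_ml h1).trans ?_
  rw [Submodule.sup_mul, mul_assoc]
  refine sup_le h ?_
  exact (mul_mr hW).trans ((Y.LU _ _).trans hX)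

/-- `U (a + b) W` against `U a (U b W)` -/
theorem split (a b n : ι → ℕ) {W X : Submodule k R} (hW : W ≤ Y.U n)
    (h : Y.U a * (Y.U b * W) ≤ X) (hX : Y.L (a + b + n) ≤ X) : Y.U (a + b) * W ≤ X := by
  refine (mul_ml (Y.gen a b)).trans ?_
  rw [Submodule.sup_mul, mul_assoc]
  refine sup_le h ?_
  exact (mul_mr hW).trans ((Y.LU _ _).trans hX)

theorem zero_mul_le {n : ι → ℕ} {W : Submodule k R} (hl : Y.L n ≤ W) (hW : W ≤ Y.U n) :
    Y.U 0 * W ≤ W := by
  refine (mul_ml Y.uzero).trans ?_
  rw [Submodule.sup_mul, one_mul]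
  refine sup_le le_rfl ?_
  refine (mul_mr hW).trans ((Y.LU 0 n).trans ?_)
  rw [zero_add]
  exact hl

theorem le_zero_mul (W : Submodule k R) : W ≤ Y.U 0 * W := by
  have h1 : (1 : Submodule k R) ≤ Y.U 0 := by
    rw [Submodule.one_le]
    exact Y.one_mem
  calc W = 1 * W := (one_mul W).symm
    _ ≤ Y.U 0 * W := mul_ml h1

/-- elements supported on `S` -/
theorem Stab.mul' {S : Finset ι} {N : (ι → ℕ) → Submodule k R} (h : Y.Stab S N) (n x : ι → ℕ)
    (hx : ∀ j, j ∉ S → x j = 0) : Y.U x * N n ≤ N (n + x) := by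
  refine up_induct (P := fun x => Y.U x * N n ≤ N (n + x)) S 0 ?_ ?_ x (fun j hj => hx j hj)
    (fun j _ => Nat.zero_le _)
  · rw [add_zero]
    exact zero_mul_le (h.lo n) (h.hi n)
  · intro y _ _ hy i hi
    rw [add_comm y (e i)]
    refine split (e i) y n (h.hi n) ?_ ?_
    · refine (mul_mr hy).trans ((h.mul i hi _).trans ?_)
      rw [add_assoc, add_comm y (e i)]
    · rw [add_comm (e i + y) n]
      exact h.lo _

variable (Y) in
/-- `V_i N` -/
noncomputable def vfam (i : ι) (N : (ι → ℕ) → Submodule k R) (n : ι → ℕ) : Submodule k R :=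
  if n i = 0 then Y.L n else Y.U (e i) * N (n - e i) ⊔ Y.L n

variable (Y) in
/-- `(N : V_i)` -/
def cfam (i : ι) (N : (ι → ℕ) → Submodule k R) (n : ι → ℕ) : Submodule k R :=
  Y.U n ⊓ colon (Y.U (e i)) (N (n + e i))

omit [DecidableEq ι] in
theorem sub_add_one {ι : Type} [DecidableEq ι] {n : ι → ℕ} {i : ι} (h : n i ≠ 0) :
    n - e i + e i = n := by
  funext j
  by_cases hj : j = i
  · subst hj
    simp only [Pi.add_apply, Pi.sub_apply, e_same]
    omega
  · simp [e_ne hj]

theorem vfam_add (i : ι) (N : (ι → ℕ) → Submodule k R) (n : ι → ℕ) :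
    Y.vfam i N (n + e i) = Y.U (e i) * N n ⊔ Y.L (n + e i) := by
  unfold vfam
  rw [if_neg (by rw [add_e_same]; omega), add_tsub_cancel_right]

theorem vfam_stab {T : Finset ι} {N : (ι → ℕ) → Submodule k R} (h : Y.Stab T N) {i : ι}
    (hi : i ∉ T) : Y.Stab T (Y.vfam i N) := by
  refine ⟨fun n => ?_, fun n => ?_, fun j hj n => ?_⟩
  · unfold vfam
    split_ifs
    · exact le_rfl
    · exact le_sup_right
  · unfold vfam
    split_ifs with h0
    · exact Y.hLU n
    · refine sup_le ?_ (Y.hLU n)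
      refine (mul_mr (h.hi _)).trans ((Y.UU _ _).trans ?_)
      rw [add_comm, sub_add_one h0]
  · have hij : i ≠ j := fun h' => hi (h' ▸ hj)
    by_cases h0 : n i = 0
    · have h1 : Y.vfam i N n = Y.L n := by
        unfold vfam
        rw [if_pos h0]
      have h2 : Y.vfam i N (n + e j) = Y.L (n + e j) := by
        unfold vfam
        rw [if_pos (by rw [add_e_ne n hij]; exact h0)]
      rw [h1, h2, add_comm n]
      exact Y.UL _ _
    · obtain ⟨n', rfl⟩ : ∃ n', n = n' + e i := ⟨n - e i, (sub_add_one h0).symm⟩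
      have e1 : n' + e i + e j = n' + e j + e i := by
        rw [add_assoc, add_comm (e i), ← add_assoc]
      rw [e1, vfam_add, vfam_add, Submodule.mul_sup]
      have hL : Y.L (e j + (n' + e i)) = Y.L (n' + e j + e i) := by
        congr 1
        rw [← e1, add_comm]
      refine sup_le ?_ ((Y.UL _ _).trans ?_)
      · refine swap (e j) (e i) n' (h.hi n') ?_ ?_
        · exact (mul_mr (h.mul j hj n')).trans le_sup_left
        · rw [show e j + e i + n' = n' + e j + e i by rw [add_assoc n', add_comm n']]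
          exact le_sup_right
      · rw [hL]
        exact le_sup_right

theorem vfam_le {S : Finset ι} {N : (ι → ℕ) → Submodule k R} (h : Y.Stab S N) {i : ι}
    (hi : i ∈ S) (n : ι → ℕ) : Y.vfam i N n ≤ N n := by
  unfold vfam
  split_ifs with h0
  · exact h.lo n
  · refine sup_le ?_ (h.lo n)
    refine (h.mul i hi _).trans ?_
    rw [sub_add_one h0]

theorem cfam_stab {T : Finset ι} {N : (ι → ℕ) → Submodule k R} (h : Y.Stab T N) (i : ι) :
    Y.Stab T (Y.cfam i N) := by
  have hc : ∀ n, Y.U (e i) * Y.cfam i N n ≤ N (n + e i) := fun n =>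
    (mul_mr inf_le_right).trans (mul_colon_le _ _)
  refine ⟨fun n => ?_, fun n => inf_le_left, fun j hj n => ?_⟩
  · refine le_inf (Y.hLU n) (le_colon.2 ?_)
    refine (Y.UL _ _).trans ?_
    rw [add_comm]
    exact h.lo _
  · refine le_inf ?_ (le_colon.2 ?_)
    · refine (mul_mr inf_le_left).trans ((Y.UU _ _).trans ?_)
      rw [add_comm]
    · have e1 : n + e j + e i = n + e i + e j := by
        rw [add_assoc, add_comm (e j), ← add_assoc]
      rw [e1]
      refine swap (e i) (e j) n inf_le_left ?_ ?_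
      · exact (mul_mr (hc n)).trans (h.mul j hj _)
      · rw [show e i + e j + n = n + e i + e j by rw [add_assoc n, add_comm n]]
        exact h.lo _

theorem le_cfam {S : Finset ι} {N : (ι → ℕ) → Submodule k R} (h : Y.Stab S N) {i : ι}
    (hi : i ∈ S) (n : ι → ℕ) : N n ≤ Y.cfam i N n :=
  le_inf (h.hi n) (le_colon.2 (h.mul i hi n))

theorem cfam_mono {N N' : (ι → ℕ) → Submodule k R} {i : ι} {n : ι → ℕ}
    (h : N (n + e i) ≤ N' (n + e i)) : Y.cfam i N n ≤ Y.cfam i N' n :=
  inf_le_inf_left _ (colon_mono h)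

theorem H_E1 {T : Finset ι} {N : (ι → ℕ) → Submodule k R} (h : Y.Stab T N) (i : ι) (n : ι → ℕ) :
    Y.H (Y.vfam i N) (n + e i + e i) + Y.H (Y.cfam i N) n = 2 * Y.H N (n + e i) := by
  unfold H
  rw [vfam_add]
  exact Y.E1 i n (N (n + e i)) (h.lo _) (h.hi _)

/-! ### truncation -/

/-- truncation in the coordinates of `S` -/
def tr {ι : Type} [DecidableEq ι] (S : Finset ι) (m : ℕ) (n : ι → ℕ) : ι → ℕ :=
  fun j => if j ∈ S then min (n j) m else n j

omit [DecidableEq ι] in
theorem tr_le {ι : Type} [DecidableEq ι] (S : Finset ι) (m : ℕ) (n : ι → ℕ) (j : ι) :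
    tr S m n j ≤ n j := by
  unfold tr
  split_ifs
  · exact min_le_left _ _
  · exact le_rfl

omit [DecidableEq ι] in
theorem sub_tr_add {ι : Type} [DecidableEq ι] (S : Finset ι) (m : ℕ) (n : ι → ℕ) :
    n - tr S m n + tr S m n = n := by
  funext j
  simp only [Pi.add_apply, Pi.sub_apply]
  have := tr_le S m n j
  omega

variable (Y) in
/-- the family generated by the part of `N` in the box -/
def Fm (S : Finset ι) (m : ℕ) (N : (ι → ℕ) → Submodule k R) (n : ι → ℕ) : Submodule k R :=
  Y.U (n - tr S m n) * N (tr S m n) ⊔ Y.L n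

theorem Fm_le {S : Finset ι} {N : (ι → ℕ) → Submodule k R} (h : Y.Stab S N) (m : ℕ) (n : ι → ℕ) :
    Y.Fm S m N n ≤ N n := by
  refine sup_le ?_ (h.lo n)
  refine (h.mul' _ _ ?_).trans ?_
  · intro j hj
    simp [tr, hj]
  · rw [add_comm, sub_tr_add]

theorem Fm_stab {S : Finset ι} {N : (ι → ℕ) → Submodule k R} (h : Y.Stab S N) (m : ℕ) :
    Y.Stab S (Y.Fm S m N) := by
  refine ⟨fun n => le_sup_right, fun n => (Fm_le h m n).trans (h.hi n), fun i hi n => ?_⟩
  unfold Fm
  rw [Submodule.mul_sup]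
  have hL : Y.U (e i) * Y.L n ≤ Y.L (n + e i) := by
    rw [add_comm n]
    exact Y.UL _ _
  refine sup_le ?_ (hL.trans le_sup_right)
  have hidx : e i + (n - tr S m n) + tr S m n = n + e i := by
    rw [add_assoc, sub_tr_add, add_comm]
  by_cases hm : m ≤ n i
  · have h1 : tr S m (n + e i) = tr S m n := by
      funext j
      by_cases hj : j = i
      · subst hj
        simp only [tr, if_pos hi, add_e_same]
        omega
      · simp only [tr, add_e_ne n hj]
    have h2 : n + e i - tr S m n = e i + (n - tr S m n) := by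
      funext j
      have := tr_le S m n j
      simp only [Pi.add_apply, Pi.sub_apply]
      omega
    rw [h1, h2, ← mul_assoc]
    exact (mul_ml (Y.UU _ _)).trans le_sup_left
  · push Not at hm
    have h1 : tr S m (n + e i) = tr S m n + e i := by
      funext j
      by_cases hj : j = i
      · subst hj
        rw [add_e_same]
        simp only [tr, if_pos hi, add_e_same]
        omega
      · rw [add_e_ne _ hj]
        simp only [tr, add_e_ne n hj]
    have h2 : n + e i - (tr S m n + e i) = n - tr S m n := by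
      funext j
      simp only [Pi.add_apply, Pi.sub_apply]
      omega
    rw [h1, h2]
    refine swap (e i) (n - tr S m n) (tr S m n) (h.hi _) ?_ ?_
    · exact (mul_mr (h.mul i hi _)).trans le_sup_left
    · rw [hidx]
      exact le_sup_right

theorem Fm_gen {S : Finset ι} {N : (ι → ℕ) → Submodule k R} (h : Y.Stab S N) (m : ℕ) (n : ι → ℕ)
    {i : ι} (hi : i ∈ S) (hm : m ≤ n i) :
    Y.Fm S m N (n + e i) ≤ Y.U (e i) * Y.Fm S m N n ⊔ Y.L (n + e i) := by
  have h1 : tr S m (n + e i) = tr S m n := by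
    funext j
    by_cases hj : j = i
    · subst hj
      simp only [tr, if_pos hi, add_e_same]
      omega
    · simp only [tr, add_e_ne n hj]
  have h2 : n + e i - tr S m n = e i + (n - tr S m n) := by
    funext j
    have := tr_le S m n j
    simp only [Pi.add_apply, Pi.sub_apply]
    omega
  have h3 : Y.Fm S m N (n + e i) = Y.U (e i + (n - tr S m n)) * N (tr S m n) ⊔ Y.L (n + e i) := by
    unfold Fm
    rw [h1, h2]
  have hidx : e i + (n - tr S m n) + tr S m n = n + e i := by
    rw [add_assoc, sub_tr_add, add_comm]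
  rw [h3]
  refine sup_le ?_ le_sup_right
  refine split (e i) (n - tr S m n) (tr S m n) (h.hi _) ?_ ?_
  · refine (mul_mr ?_).trans le_sup_left
    exact le_sup_left
  · rw [hidx]
    exact le_sup_right

theorem le_Fm_of_box {S : Finset ι} (N : (ι → ℕ) → Submodule k R) {m : ℕ}
    {n : ι → ℕ} (hn : ∀ j ∈ S, n j ≤ m) : N n ≤ Y.Fm S m N n := by
  have h1 : tr S m n = n := by
    funext j
    unfold tr
    split_ifs with hj
    · exact min_eq_left (hn j hj)
    · rfl
  unfold Fm
  rw [h1, tsub_self]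
  exact (le_zero_mul (N n)).trans le_sup_left

theorem Fm_mono {S : Finset ι} {N : (ι → ℕ) → Submodule k R} (h : Y.Stab S N) {m m' : ℕ}
    (hm : m ≤ m') (n : ι → ℕ) : Y.Fm S m N n ≤ Y.Fm S m' N n := by
  unfold Fm
  refine sup_le ?_ le_sup_right
  have h2 : ∀ j, tr S m n j ≤ tr S m' n j := by
    intro j
    unfold tr
    split_ifs
    · exact min_le_min le_rfl hm
    · exact le_rfl
  have h1 : n - tr S m n = (n - tr S m' n) + (tr S m' n - tr S m n) := by
    funext j
    have h3 := h2 j
    have h4 := tr_le S m' n j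
    simp only [Pi.add_apply, Pi.sub_apply]
    omega
  have h5 : tr S m n + (tr S m' n - tr S m n) = tr S m' n := by
    funext j
    have h3 := h2 j
    simp only [Pi.add_apply, Pi.sub_apply]
    omega
  rw [h1]
  refine split _ _ (tr S m n) (h.hi _) ?_ ?_
  · refine (mul_mr ((h.mul' _ _ ?_).trans (le_of_eq (by rw [h5])))).trans le_sup_left
    intro j hj
    simp [tr, hj]
  · rw [← h1, sub_tr_add]
    exact le_sup_right

end Sys

end Pool.Agent.Lib.NOreX
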